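import Pool.Agent.Lib.MP_b442e4_al.LF.Defs

/-! Relatively free groups, supports, idempotent powers. -/

set_option autoImplicit false

namespace Pool.Agent.Lib.MP_b442e4_al.LF

open Subgroup

variable {S : Set (FreeGroup ℕ)}

theorem lift_map {G K : Type} [Group G] [Group K] (θ : G →* K) (f : ℕ → G)
    (r : FreeGroup ℕ) : θ (FreeGroup.lift f r) = FreeGroup.lift (fun n => θ (f n)) r := by
  have h : θ.comp (FreeGroup.lift f) = FreeGroup.lift (fun n => θ (f n)) := by
    ext n
    simp
  exact DFunLike.congr_fun h r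

theorem InVar.of_inj {A B : Type} [Group A] [Group B] (hB : InVar S B) (θ : A →* B)
    (h : Function.Injective θ) : InVar S A := fun w hw f =>
  h (by rw [lift_map, map_one]; exact hB w hw _)

theorem InVar.sub {G : Type} [Group G] (hG : InVar S G) (H : Subgroup G) : InVar S H :=
  hG.of_inj H.subtype H.subtype_injective

theorem InVar.of_surj {A B : Type} [Group A] [Group B] (hA : InVar S A) (θ : A →* B)
    (h : Function.Surjective θ) : InVar S B := by
  intro w hw f
  choose f' hf' using fun n => h (f n)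
  have e : f = fun n => θ (f' n) := funext fun n => (hf' n).symm
  rw [e, ← lift_map, hA w hw, map_one]

theorem InVar.quot {G : Type} [Group G] (hG : InVar S G) (N : Subgroup G) [N.Normal] :
    InVar S (G ⧸ N) :=
  hG.of_surj (QuotientGroup.mk' N) (QuotientGroup.mk'_surjective N)

/-- The normal closure of all values of the laws. -/
def verb (S : Set (FreeGroup ℕ)) (G : Type) [Group G] : Subgroup G :=
  normalClosure {g | ∃ r ∈ S, ∃ f : ℕ → G, FreeGroup.lift f r = g}

theorem verb_normal (G : Type) [Group G] : (verb S G).Normal := normalClosure_normal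

/-- The free group of the variety. -/
def Fr (S : Set (FreeGroup ℕ)) (X : Type) : Type := FreeGroup X ⧸ verb S (FreeGroup X)

instance (X : Type) : Group (Fr S X) :=
  @QuotientGroup.Quotient.group _ _ _ (verb_normal (S := S) (FreeGroup X))

/-- The quotient map. -/
def frMk (S : Set (FreeGroup ℕ)) (X : Type) : FreeGroup X →* Fr S X :=
  @QuotientGroup.mk' _ _ _ (verb_normal (S := S) (FreeGroup X))

theorem frMk_surj (X : Type) : Function.Surjective (frMk S X) :=
  @QuotientGroup.mk'_surjective _ _ _ (verb_normal (S := S) (FreeGroup X))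

/-- The free generators. -/
def gen (S : Set (FreeGroup ℕ)) {X : Type} (x : X) : Fr S X := frMk S X (FreeGroup.of x)

theorem fr_inVar (X : Type) : InVar S (Fr S X) := by
  intro r hr f
  choose f' hf' using fun n => frMk_surj (S := S) X (f n)
  have e : f = fun n => frMk S X (f' n) := funext fun n => (hf' n).symm
  rw [e, ← lift_map]
  have := verb_normal (S := S) (FreeGroup X)
  exact (QuotientGroup.eq_one_iff _).2 (subset_normalClosure ⟨r, hr, f', rfl⟩)

theorem fr_lift {X K : Type} [Group K] (hK : InVar S K) (f : X → K) :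
    ∃ θ : Fr S X →* K, ∀ x, θ (gen S x) = f x := by
  have := verb_normal (S := S) (FreeGroup X)
  have h : verb S (FreeGroup X) ≤ (FreeGroup.lift f).ker := by
    refine normalClosure_le_normal ?_
    rintro _ ⟨r, hr, g, rfl⟩
    rw [SetLike.mem_coe, MonoidHom.mem_ker, lift_map]
    exact hK r hr _
  exact ⟨QuotientGroup.lift _ (FreeGroup.lift f) h, fun x => by
    show FreeGroup.lift f (FreeGroup.of x) = f x
    simp⟩

theorem fr_closure (X : Type) : closure (Set.range (gen S : X → Fr S X)) = ⊤ := by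
  have h : Set.range (gen S : X → Fr S X) = frMk S X '' Set.range FreeGroup.of := by
    rw [← Set.range_comp]
    rfl
  rw [h, ← MonoidHom.map_closure, FreeGroup.closure_range_of, ← MonoidHom.range_eq_map,
    MonoidHom.range_eq_top]
  exact frMk_surj X

theorem fr_ext {X K : Type} [Group K] {θ θ' : Fr S X →* K}
    (h : ∀ x, θ (gen S x) = θ' (gen S x)) : θ = θ' :=
  MonoidHom.eq_of_eqOn_dense (fr_closure X) (by rintro _ ⟨x, rfl⟩; exact h x)

theorem fr_proj (X : Type) : Proj S (Fr S X) := by
  intro A B _ _ hA _ α hα β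
  choose f hf using fun x => hα (β (gen S x))
  obtain ⟨γ, hγ⟩ := fr_lift hA f
  exact ⟨γ, fr_ext fun x => by simp [hγ, hf]⟩

theorem Proj.range {P : Type} [Group P] (hP : Proj S P) (ρ : P →* P) (hρ : ∀ x, ρ (ρ x) = ρ x) :
    Proj S ρ.range := by
  intro A B _ _ hA hB α hα β
  obtain ⟨γ, hγ⟩ := hP A B hA hB α hα (β.comp ρ.rangeRestrict)
  refine ⟨γ.comp ρ.range.subtype, MonoidHom.ext ?_⟩
  rintro ⟨_, x, rfl⟩
  have := DFunLike.congr_fun hγ (ρ x)
  simp only [MonoidHom.comp_apply, coe_subtype] at this ⊢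
  rw [this]
  congr 1
  exact Subtype.ext (hρ x)

theorem fin_supp {G : Type} [Group G] {s : Set G} {x : G} (hx : x ∈ closure s) :
    ∃ t ⊆ s, t.Finite ∧ x ∈ closure t := by
  induction hx using closure_induction with
  | mem x hx => exact ⟨{x}, by simpa using hx, Set.finite_singleton x, subset_closure rfl⟩
  | one => exact ⟨∅, Set.empty_subset _, Set.finite_empty, one_mem _⟩
  | mul x y _ _ hx hy =>
    obtain ⟨t, h1, h2, h3⟩ := hx
    obtain ⟨u, k1, k2, k3⟩ := hy
    exact ⟨t ∪ u, Set.union_subset h1 k1, h2.union k2,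
      mul_mem (closure_mono Set.subset_union_left h3) (closure_mono Set.subset_union_right k3)⟩
  | inv x _ hx =>
    obtain ⟨t, h1, h2, h3⟩ := hx
    exact ⟨t, h1, h2, inv_mem h3⟩

/-- Finitely generated groups of the variety are finite. -/
def LocFin (S : Set (FreeGroup ℕ)) : Prop :=
  ∀ (G : Type) [Group G], InVar S G → Group.FG G → Finite G

theorem LocFin.closure (h : LocFin S) {G : Type} [Group G] (hG : InVar S G) {s : Set G}
    (hs : s.Finite) : Finite (closure s) := by
  have := hs.to_subtype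
  exact h _ (hG.sub _) (Group.closure_finite_fg s)

theorem idem_of_eq {M : Type} [Monoid M] (a : M) {i j : ℕ} (hij : i < j) (h : a ^ i = a ^ j) :
    ∃ m, a ^ (m + 1) * a ^ (m + 1) = a ^ (m + 1) := by
  obtain ⟨d, rfl⟩ := Nat.exists_eq_add_of_lt hij
  have h1 : ∀ k, a ^ (i + k * (d + 1)) = a ^ i := by
    intro k
    induction k with
    | zero => simp
    | succ k ih =>
      rw [show i + (k + 1) * (d + 1) = (i + d + 1) + k * (d + 1) by ring, pow_add, ← h, ← pow_add,
        ih]
  refine ⟨i + (i + 1) * d, ?_⟩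
  rw [← pow_add, show i + (i + 1) * d + 1 + (i + (i + 1) * d + 1) =
    (i + (i + 1) * (d + 1)) + ((i + 1) * d + 1) by ring, pow_add, h1, ← pow_add]
  congr 1

/-- An endomorphism that fixes `B` and moves finitely many further generators inside a finite set
has an idempotent power. -/
theorem idem_pow {P : Type} [Group P] (φ : Monoid.End P) (B Z : Set P) (U : Subgroup P)
    [Finite U] (hZ : Z ⊆ U) (hU : ∀ u ∈ U, φ u ∈ U) (hB : ∀ b ∈ B, φ b = b)
    (hr : ∀ x, φ x ∈ closure (B ∪ Z)) : ∃ m, ∀ x, (φ ^ (m + 1)) ((φ ^ (m + 1)) x) = (φ ^ (m + 1)) x := by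
  have h1 : ∀ k : ℕ, ∀ u ∈ U, (φ ^ k) u ∈ U := by
    intro k
    induction k with
    | zero => exact fun u hu => hu
    | succ k ih => exact fun u hu => by rw [pow_succ]; exact ih _ (hU u hu)
  have h2 : ∀ k : ℕ, ∀ b ∈ B, (φ ^ k) b = b := by
    intro k
    induction k with
    | zero => exact fun u _ => rfl
    | succ k ih =>
      intro b hb
      rw [pow_succ]
      show (φ ^ k) (φ b) = b
      rw [hB b hb, ih b hb]
  have key : ∀ i j : ℕ, (∀ u : U, (φ ^ i) u = (φ ^ j) u) → φ ^ (i + 1) = φ ^ (j + 1) := by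
    intro i j h
    refine MonoidHom.ext fun x => ?_
    rw [pow_succ, pow_succ]
    have h3 : Set.EqOn (φ ^ i : Monoid.End P) (φ ^ j : Monoid.End P) (closure (B ∪ Z)) :=
      MonoidHom.eqOn_closure (f := (φ ^ i : Monoid.End P)) (g := (φ ^ j : Monoid.End P)) (by
        rintro y (hy | hy)
        · exact (h2 i y hy).trans (h2 j y hy).symm
        · exact h ⟨y, hZ hy⟩)
    exact h3 (hr x)
  obtain ⟨i, j, hij, h⟩ := Finite.exists_ne_map_eq_of_infinite
    (fun k : ℕ => fun u : U => (⟨(φ ^ k) u, h1 k u u.2⟩ : U))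
  have h4 := key i j fun u => congrArg Subtype.val (congrFun h u)
  have h5 : ∃ m, φ ^ (m + 1) * φ ^ (m + 1) = φ ^ (m + 1) := by
    rcases lt_or_gt_of_ne hij with h | h
    · exact idem_of_eq φ (Nat.succ_lt_succ h) h4
    · exact idem_of_eq φ (Nat.succ_lt_succ h) h4.symm
  obtain ⟨m, hm⟩ := h5
  exact ⟨m, fun x => DFunLike.congr_fun hm x⟩

end Pool.Agent.Lib.MP_b442e4_al.LF
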