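import Mathlib

/-! Varieties of groups given by laws, projective groups, free products in a variety. -/

set_option autoImplicit false

namespace Pool.Agent.Lib.MP_b442e4_al.LF

/-- `G` satisfies every law in `S`. -/
def InVar (S : Set (FreeGroup ℕ)) (G : Type) [Group G] : Prop :=
  ∀ w ∈ S, ∀ f : ℕ → G, FreeGroup.lift f w = 1

/-- The lifting property against surjections between groups of the variety defined by `S`. -/
def Proj (S : Set (FreeGroup ℕ)) (P : Type) [Group P] : Prop :=
  ∀ (A B : Type) [Group A] [Group B], InVar S A → InVar S B →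
    ∀ α : A →* B, Function.Surjective α → ∀ β : P →* B, ∃ γ : P →* A, α.comp γ = β

/-- `G` with the maps `ι i` has the universal property of the coproduct of the groups `H i` in the
variety defined by `S`. -/
def IsFreeProduct (S : Set (FreeGroup ℕ)) (G : Type) [Group G] {I : Type} (H : I → Type)
    [∀ i, Group (H i)] (ι : ∀ i, H i →* G) : Prop :=
  ∀ (K : Type) [Group K], InVar S K →
    ∀ g : ∀ i, H i →* K, ∃! θ : G →* K, ∀ i, θ.comp (ι i) = g i

end Pool.Agent.Lib.MP_b442e4_al.LF
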