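import Pool.Agent.Lib.MP_b442e4_al.LF.Base

/-! A locally finite variety with a finite group that is not nilpotent has an uncountable
projective group that is the normal closure of a finite set. -/

set_option autoImplicit false

namespace Pool.Agent.Lib.MP_b442e4_al.LF

open Subgroup

variable {S : Set (FreeGroup ℕ)}

theorem countable_of_closure {G : Type} [Group G] {s : Set G} (hs : s.Countable)
    (h : closure s = ⊤) : Countable G := by
  have : Countable s := hs.to_subtype
  have h1 : (FreeGroup.lift (fun x : s => (x : G))).range = ⊤ := by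
    rw [FreeGroup.range_lift_eq_closure, Subtype.range_coe, h]
  exact (MonoidHom.range_eq_top.1 h1).countable

theorem exists_stable {G : Type} [Group G] [Finite G] (h : ¬ Group.IsNilpotent G) :
    ∃ K : Subgroup G, K ≠ ⊥ ∧ ⁅K, (⊤ : Subgroup G)⁆ = K := by
  obtain ⟨_, ⟨n, rfl⟩, hn⟩ := (wellFounded_lt (α := Subgroup G)).has_min
    (Set.range (⊤ : Subgroup G).lowerCentralSeries) ⟨_, 0, rfl⟩
  refine ⟨_, fun h0 => h (Subgroup.nilpotent_iff_lowerCentralSeries.2 ⟨n, h0⟩), ?_⟩
  exact eq_of_le_of_not_lt (Subgroup.lowerCentralSeries_antitone ⊤ (Nat.le_succ n))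
     (hn _ ⟨n + 1, rfl⟩)

/-- An idempotent endomorphism of a free group of finite rank. -/
theorem exists_idem (hF : LocFin S) {G : Type} [Group G] [Finite G]
    (K : Subgroup G) (hK : ⁅K, (⊤ : Subgroup G)⁆ = K) (ev : Fr S (G ⊕ K) →* G)
    (h1 : ∀ g, ev (gen S (Sum.inl g)) = g) (h2 : ∀ k : K, ev (gen S (Sum.inr k)) = k) :
    ∃ e : Fr S (G ⊕ K) →* Fr S (G ⊕ K), (∀ x, e (e x) = e x) ∧
      (∀ g, e (gen S (Sum.inl g)) = gen S (Sum.inl g)) ∧ (∀ x, ev (e x) = ev x) ∧
      ∀ k, e (gen S (Sum.inr k)) ∈ normalClosure (Set.range fun g => gen S (Sum.inl g)) ⊓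
        normalClosure (Set.range fun k => gen S (Sum.inr k)) := by
  let A : Subgroup (Fr S (G ⊕ K)) := closure (Set.range fun k => gen S (Sum.inr k))
  let B : Subgroup (Fr S (G ⊕ K)) := closure (Set.range fun g => gen S (Sum.inl g))
  let D : Subgroup (Fr S (G ⊕ K)) := normalClosure (Set.range fun g => gen S (Sum.inl g)) ⊓
    normalClosure (Set.range fun k => gen S (Sum.inr k))
  have hA : K ≤ A.map ev := fun k hk => ⟨_, subset_closure ⟨⟨k, hk⟩, rfl⟩, h2 _⟩
  have hB : ⊤ ≤ B.map ev := fun g _ => ⟨_, subset_closure ⟨g, rfl⟩, h1 _⟩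
  have hD : ⁅A, B⁆ ≤ D := (commutator_mono closure_le_normalClosure closure_le_normalClosure).trans
    ((commutator_le_inf _ _).trans (inf_comm _ _).le)
  have hu : ∀ k : K, ∃ u ∈ D, ev u = k := by
    intro k
    have h3 : K ≤ ⁅A, B⁆.map ev := by
      rw [map_commutator]
      exact hK.ge.trans (commutator_mono hA hB)
    obtain ⟨u, hu, h⟩ := h3 k.2
    exact ⟨u, hD hu, h⟩
  choose u hu1 hu2 using hu
  obtain ⟨φ, hφ⟩ := fr_lift (fr_inVar (S := S) (G ⊕ K)) (Sum.elim (fun g => gen S (Sum.inl g)) u)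
  have : Finite (⊤ : Subgroup (Fr S (G ⊕ K))) :=
    fr_closure (S := S) (G ⊕ K) ▸ hF.closure (fr_inVar _) (Set.finite_range _)
  let f : Monoid.End (Fr S (G ⊕ K)) := φ
  obtain ⟨m, hm⟩ := idem_pow f ∅ Set.univ ⊤ subset_rfl (fun _ _ => mem_top _) (fun _ h => h.elim)
    (fun x => subset_closure (Or.inr trivial))
  have hev : ev.comp φ = ev := fr_ext (by
    rintro (g | k)
    · simp [hφ]
    · simp [hφ, hu2, h2])
  have hφD : D ≤ D.comap φ := by
    rw [comap_inf]
    refine inf_le_inf (normalClosure_le_normal ?_) (normalClosure_le_normal ?_)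
    · rintro _ ⟨g, rfl⟩
      rw [SetLike.mem_coe, mem_comap, hφ]
      exact subset_normalClosure ⟨g, rfl⟩
    · rintro _ ⟨k, rfl⟩
      rw [SetLike.mem_coe, mem_comap, hφ]
      exact (hu1 k).2
  have key : ∀ n : ℕ, (∀ g, (f ^ (n + 1)) (gen S (Sum.inl g)) = gen S (Sum.inl g)) ∧
      (∀ x, ev ((f ^ (n + 1)) x) = ev x) ∧ ∀ k, (f ^ (n + 1)) (gen S (Sum.inr k)) ∈ D := by
    intro n
    induction n with
    | zero =>
      rw [zero_add, pow_one]
      exact ⟨fun g => hφ _, DFunLike.congr_fun hev, fun k => (hφ (Sum.inr k)).symm ▸ hu1 k⟩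
    | succ n ih =>
      rw [pow_succ']
      exact ⟨fun g => (congrArg φ (ih.1 g)).trans (hφ _),
        fun x => (DFunLike.congr_fun hev _).trans (ih.2.1 x), fun k => hφD (ih.2.2 k)⟩
  exact ⟨(f ^ (m + 1) : Monoid.End _), hm, key m⟩

theorem exists_big (hF : LocFin S) {G : Type} [Group G] [Finite G] (hG : InVar S G)
    (h : ¬ Group.IsNilpotent G) : ∃ (P : Type) (_ : Group P), InVar S P ∧ Proj S P ∧
      ¬ Countable P ∧ ∃ T : Set P, T.Finite ∧ normalClosure T = ⊤ := by
  classical
  obtain ⟨K, hK0, hK⟩ := exists_stable h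
  obtain ⟨ev, hev⟩ := fr_lift (S := S) hG (Sum.elim id K.subtype : G ⊕ K → G)
  obtain ⟨e1, i1, i2, i3, i4⟩ := exists_idem hF K hK ev (fun g => hev _) (fun k => hev _)
  have hV := fr_inVar (S := S) (G ⊕ ℝ × K)
  choose j hj using fun a : ℝ => fr_lift (S := S) hV
    (fun y : G ⊕ K => gen S (Sum.map id (Prod.mk a) y))
  obtain ⟨e, he⟩ := fr_lift (S := S) hV (Sum.elim (fun g => gen S (Sum.inl g))
    (fun p => j p.1 (e1 (gen S (Sum.inr p.2)))) : G ⊕ ℝ × K → _)
  have h1 : ∀ a, e.comp (j a) = (j a).comp e1 := fun a => fr_ext (by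
    rintro (g | k)
    · simp [hj, he, i2]
    · simp [hj, he])
  have h2 : ∀ x, e (e x) = e x := DFunLike.congr_fun (f := e.comp e) (fr_ext (by
    rintro (g | ⟨a, k⟩)
    · simp [he]
    · have := DFunLike.congr_fun (h1 a) (e1 (gen S (Sum.inr k)))
      simpa [he, i1] using this))
  refine ⟨e.range, inferInstance, hV.sub _, (fr_proj _).range e h2, fun hc => ?_,
    Set.range fun g => e.rangeRestrict (gen S (Sum.inl g)), Set.finite_range _, eq_top_iff.2 ?_⟩
  · have := K.nontrivial_iff_ne_bot.2 hK0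
    obtain ⟨k0, hk0⟩ := exists_ne (1 : K)
    refine not_countable (α := ℝ) (Function.Injective.countable
      (f := fun a : ℝ => e.rangeRestrict (gen S (Sum.inr (a, k0)))) fun a b hab => ?_)
    by_contra hne
    obtain ⟨θ, hθ⟩ := fr_lift (S := S) hG (Sum.elim id
      (fun p => if p.1 = a then (p.2 : G) else 1) : G ⊕ ℝ × K → G)
    have h3 : θ.comp (j a) = ev := fr_ext (by
      rintro (g | k)
      · simp [hj, hθ, hev]
      · simp [hj, hθ, hev])
    have h4 : normalClosure (Set.range fun k => gen S (Sum.inr k)) ≤ (θ.comp (j b)).ker :=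
      normalClosure_le_normal (by
        rintro _ ⟨k, rfl⟩
        simp [hj, hθ, Ne.symm hne])
    have h5 : j a (e1 (gen S (Sum.inr k0))) = j b (e1 (gen S (Sum.inr k0))) := by
      simpa [he] using congrArg Subtype.val hab
    have h6 := DFunLike.congr_fun h3 (e1 (gen S (Sum.inr k0)))
    rw [MonoidHom.comp_apply, h5, i3, hev] at h6
    exact hk0 (Subtype.ext (h6.symm.trans (h4 (i4 k0).2)))
  · rintro ⟨_, x, rfl⟩ -
    have h3 : closure (Set.range (gen S : G ⊕ ℝ × K → _)) ≤ (normalClosure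
        (Set.range fun g => e.rangeRestrict (gen S (Sum.inl g)))).comap e.rangeRestrict := by
      refine (closure_le _).2 ?_
      rintro _ ⟨g | ⟨a, k⟩, rfl⟩
      · exact subset_normalClosure ⟨g, rfl⟩
      · have h4 : normalClosure (Set.range fun g => gen S (Sum.inl g)) ≤ (normalClosure
            (Set.range fun g => e.rangeRestrict (gen S (Sum.inl g)))).comap
            (e.rangeRestrict.comp (j a)) := normalClosure_le_normal (by
          rintro _ ⟨g, rfl⟩
          exact subset_normalClosure ⟨g, by simp [hj]⟩)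
        have h5 := h4 (i4 k).1
        rw [mem_comap] at h5
        rw [SetLike.mem_coe, mem_comap]
        convert h5 using 1
        refine Subtype.ext ?_
        show e _ = e (j a _)
        rw [← h2, he]
        rfl
    exact h3 (fr_closure (S := S) (G ⊕ ℝ × K) ▸ mem_top x)

theorem countable_of_free_product {P : Type} [Group P] (hV : InVar S P) {T : Set P}
    (hT : T.Finite) (hN : normalClosure T = ⊤) {I : Type} (H : I → Type) [∀ i, Group (H i)]
    (ι : ∀ i, H i →* P) (hH : ∀ i, Countable (H i)) (hU : IsFreeProduct S P H ι) : Countable P := by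
  classical
  let s : Set P := ⋃ i, Set.range (ι i)
  have htop : ∀ g : P, g ∈ closure s := by
    obtain ⟨θ, hθ, -⟩ := hU (closure s) (hV.sub _) fun i => (ι i).codRestrict _ fun x =>
      subset_closure (Set.mem_iUnion.2 ⟨i, x, rfl⟩)
    have h1 : (closure s).subtype.comp θ = MonoidHom.id P :=
      (hU P hV ι).unique (fun i => by rw [MonoidHom.comp_assoc, hθ i]; rfl) (fun i => rfl)
    intro g
    have h2 : (θ g : P) = g := DFunLike.congr_fun h1 g
    exact h2 ▸ (θ g).2
  choose t t1 t2 t3 using fun g => fin_supp (htop g)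
  have h0 : ∀ y : (⋃ g ∈ T, t g : Set P), ∃ i, y.1 ∈ Set.range (ι i) := fun y => by
    obtain ⟨g, -, h⟩ := Set.mem_iUnion₂.1 y.2
    exact Set.mem_iUnion.1 (t1 g h)
  choose ind hind using h0
  have : Finite (⋃ g ∈ T, t g : Set P) := hT.biUnion fun g _ => t2 g
  obtain ⟨θ, hθ, -⟩ := hU P hV fun i => if i ∈ Set.range ind then 1 else ι i
  have h1 : normalClosure T ≤ θ.ker := normalClosure_le_normal fun g hg => by
    refine (closure_le θ.ker).2 (fun y hy => ?_) (t3 g)
    obtain ⟨x, hx⟩ := hind ⟨y, Set.mem_biUnion hg hy⟩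
    have := DFunLike.congr_fun (hθ _) x
    rw [if_pos ⟨_, rfl⟩, MonoidHom.comp_apply, hx] at this
    exact this
  refine countable_of_closure (s := ⋃ i ∈ Set.range ind, Set.range (ι i))
    ((Set.finite_range ind).countable.biUnion fun i _ => Set.countable_range _)
    (eq_top_iff.2 fun g _ => (closure_le _).2 ?_ (htop g))
  intro y hy
  obtain ⟨i, x, rfl⟩ := Set.mem_iUnion.1 hy
  by_cases hi : i ∈ Set.range ind
  · exact subset_closure (Set.mem_biUnion hi ⟨x, rfl⟩)
  · have := DFunLike.congr_fun (hθ i) x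
    rw [if_neg hi, MonoidHom.comp_apply] at this
    rw [← this, (h1 (hN ▸ mem_top _) : θ (ι i x) = 1)]
    exact one_mem _

end Pool.Agent.Lib.MP_b442e4_al.LF
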