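import Pool.Agent.Lib.MP_b442e4_al.LF.Neg

/-! A variety whose finitely generated groups are finite-by-nilpotent, one of them not nilpotent,
has an uncountable projective group that is the normal closure of a finite set. -/

set_option autoImplicit false

namespace Pool.Agent.Lib.MP_b442e4_al.LF

open Subgroup

variable {S : Set (FreeGroup ℕ)}

theorem exists_stable2 {G : Type} [Group G] {c : ℕ}
    (hc : Finite ((⊤ : Subgroup G).lowerCentralSeries c)) (h : ¬ Group.IsNilpotent G) :
    ∃ K : Subgroup G, Finite K ∧ K ≠ ⊥ ∧ ⁅K, (⊤ : Subgroup G)⁆ = K := by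
  have hfin : ∀ n, Finite ((⊤ : Subgroup G).lowerCentralSeries (c + n)) := fun n =>
    Finite.of_injective _ (inclusion_injective
      (Subgroup.lowerCentralSeries_antitone ⊤ (Nat.le_add_right c n)))
  obtain ⟨n, hn⟩ := exists_minimalFor_of_wellFoundedLT (fun _ : ℕ => True)
    (fun n => Nat.card ((⊤ : Subgroup G).lowerCentralSeries (c + n))) ⟨0, trivial⟩
  have := hfin n
  have hle := Subgroup.lowerCentralSeries_antitone (⊤ : Subgroup G) (Nat.le_succ (c + n))
  exact ⟨_, hfin n, fun h0 => h (Subgroup.nilpotent_iff_lowerCentralSeries.2 ⟨_, h0⟩),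
    eq_of_le_of_card_ge hle (hn.2 (j := n + 1) trivial (card_le_of_le hle))⟩

/-- Iterated commutators with the whole group. -/
def iterComm {G : Type} [Group G] (N : Subgroup G) : ℕ → Subgroup G
  | 0 => N
  | n + 1 => ⁅iterComm N n, ⊤⁆

/-- An idempotent endomorphism of a free group of finite rank. -/
theorem exists_idem2 {X G : Type} [Group G] (t : X → G) (ht : closure (Set.range t) = ⊤)
    (K : Subgroup G) (hK : ⁅K, (⊤ : Subgroup G)⁆ = K) {c : ℕ}
    (hc : Finite ((⊤ : Subgroup (Fr S (X ⊕ K))).lowerCentralSeries c)) (ev : Fr S (X ⊕ K) →* G)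
    (h1 : ∀ g, ev (gen S (Sum.inl g)) = t g) (h2 : ∀ k : K, ev (gen S (Sum.inr k)) = k) :
    ∃ e : Fr S (X ⊕ K) →* Fr S (X ⊕ K), (∀ x, e (e x) = e x) ∧
      (∀ g, e (gen S (Sum.inl g)) = gen S (Sum.inl g)) ∧ (∀ x, ev (e x) = ev x) ∧
      ∀ k, e (gen S (Sum.inr k)) ∈ normalClosure (Set.range fun g => gen S (Sum.inl g)) ⊓
        normalClosure (Set.range fun k => gen S (Sum.inr k)) := by
  let A : Subgroup (Fr S (X ⊕ K)) := closure (Set.range fun k => gen S (Sum.inr k))
  let B : Subgroup (Fr S (X ⊕ K)) := closure (Set.range fun g => gen S (Sum.inl g))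
  let D : Subgroup (Fr S (X ⊕ K)) := normalClosure (Set.range fun g => gen S (Sum.inl g)) ⊓
    normalClosure (Set.range fun k => gen S (Sum.inr k))
  let M : ℕ → Subgroup (Fr S (X ⊕ K)) :=
    iterComm (normalClosure (Set.range fun k : K => (gen S (Sum.inr k) : Fr S (X ⊕ K))))
  have hM : ∀ n, (M n).Normal := by
    intro n
    induction n with
    | zero => exact normalClosure_normal
    | succ n ih => exact commutator_normal _ _
  have hML : ∀ n, M n ≤ (⊤ : Subgroup (Fr S (X ⊕ K))).lowerCentralSeries n := by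
    intro n
    induction n with
    | zero => exact le_top
    | succ n ih => exact commutator_mono ih le_rfl
  have hA : K ≤ A.map ev := fun k hk => ⟨_, subset_closure ⟨⟨k, hk⟩, rfl⟩, h2 _⟩
  have hB : ⊤ ≤ B.map ev := by
    rw [← ht, closure_le]
    rintro _ ⟨g, rfl⟩
    exact ⟨_, subset_closure ⟨g, rfl⟩, h1 _⟩
  have hD : ⁅A, B⁆ ≤ D := (commutator_mono closure_le_normalClosure closure_le_normalClosure).trans
    ((commutator_le_inf _ _).trans (inf_comm _ _).le)
  have hD' : ⁅A, B⁆ ≤ M 1 := commutator_mono closure_le_normalClosure le_top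
  have hu : ∀ k : K, ∃ u ∈ ⁅A, B⁆, ev u = k := by
    intro k
    have h3 : K ≤ ⁅A, B⁆.map ev := by
      rw [map_commutator]
      exact hK.ge.trans (commutator_mono hA hB)
    exact h3 k.2
  choose u hu1 hu2 using hu
  obtain ⟨φ, hφ⟩ := fr_lift (fr_inVar (S := S) (X ⊕ K)) (Sum.elim (fun g => gen S (Sum.inl g)) u)
  let f : Monoid.End (Fr S (X ⊕ K)) := φ
  have hev : ev.comp φ = ev := fr_ext (by
    rintro (g | k)
    · simp [hφ]
    · simp [hφ, hu2, h2])
  have hφD : D ≤ D.comap φ := by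
    rw [comap_inf]
    refine inf_le_inf (normalClosure_le_normal ?_) (normalClosure_le_normal ?_)
    · rintro _ ⟨g, rfl⟩
      rw [SetLike.mem_coe, mem_comap, hφ]
      exact subset_normalClosure ⟨g, rfl⟩
    · rintro _ ⟨k, rfl⟩
      rw [SetLike.mem_coe, mem_comap, hφ]
      exact (hD (hu1 k)).2
  have hφM : ∀ n, (M n).map φ ≤ M (n + 1) := by
    intro n
    induction n with
    | zero =>
      refine map_le_iff_le_comap.2
        (@normalClosure_le_normal _ _ _ _ ((hM 1).comap φ) ?_)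
      rintro _ ⟨k, rfl⟩
      rw [SetLike.mem_coe, mem_comap, hφ]
      exact hD' (hu1 k)
    | succ n ih => exact (map_commutator _ _ φ).le.trans (commutator_mono ih le_top)
  have key : ∀ n : ℕ, (∀ g, (f ^ (n + 1)) (gen S (Sum.inl g)) = gen S (Sum.inl g)) ∧
      (∀ x, ev ((f ^ (n + 1)) x) = ev x) ∧ ∀ k, (f ^ (n + 1)) (gen S (Sum.inr k)) ∈ D := by
    intro n
    induction n with
    | zero =>
      rw [zero_add, pow_one]
      exact ⟨fun g => hφ _, DFunLike.congr_fun hev, fun k => (hφ (Sum.inr k)).symm ▸ hD (hu1 k)⟩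
    | succ n ih =>
      rw [pow_succ']
      exact ⟨fun g => (congrArg φ (ih.1 g)).trans (hφ _),
        fun x => (DFunLike.congr_fun hev _).trans (ih.2.1 x), fun k => hφD (ih.2.2 k)⟩
  have hpow : ∀ n j : ℕ, ∀ x ∈ M j, (f ^ n) x ∈ M (j + n) := by
    intro n j x hx
    induction n with
    | zero => exact hx
    | succ n ih =>
      rw [pow_succ']
      exact hφM (j + n) ⟨_, ih, rfl⟩
  have hanti : Antitone M := antitone_nat_of_succ_le fun n => by
    have := hM n
    exact commutator_le_left _ _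
  have hc1 : (((⊤ : Subgroup (Fr S (X ⊕ K))).lowerCentralSeries c : Subgroup (Fr S (X ⊕ K))) :
      Set (Fr S (X ⊕ K))).Finite := Set.finite_coe_iff.1 hc
  have hc2 : Set.Finite (SetLike.coe (M c)) := hc1.subset fun _ hx => hML c hx
  have : Finite ↥(M c) := hc2.to_subtype
  have h3 : closure (Set.range (gen S : X ⊕ K → _)) ≤ (closure ((Set.range fun g =>
      gen S (Sum.inl g)) ∪ SetLike.coe (M c))).comap (f ^ (c + 1) : Monoid.End _) := by
    refine (closure_le _).2 ?_
    rintro _ ⟨g | k, rfl⟩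
    · exact subset_closure (Or.inl ⟨g, ((key c).1 g).symm⟩)
    · have h4 : c ≤ 0 + (c + 1) := by omega
      exact subset_closure (Or.inr (hanti h4 (hpow (c + 1) 0 _ (subset_normalClosure ⟨k, rfl⟩))))
  rw [fr_closure] at h3
  have h5 : ∀ x ∈ M c, (f ^ (c + 1)) x ∈ M c := fun x hx =>
    hanti (Nat.le_add_right c (c + 1)) (hpow (c + 1) c x hx)
  obtain ⟨m, hm⟩ := idem_pow (f ^ (c + 1)) (Set.range fun g => gen S (Sum.inl g))
    (SetLike.coe (M c)) (M c) subset_rfl h5 (by rintro _ ⟨g, rfl⟩; exact (key c).1 g)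
    (fun x => h3 (mem_top x))
  rw [← pow_mul, show (c + 1) * (m + 1) = (c * (m + 1) + m) + 1 by ring] at hm
  exact ⟨(f ^ (c * (m + 1) + m + 1) : Monoid.End _), hm, key _⟩

theorem exists_big2
    (hF : ∀ (G : Type) [Group G], InVar S G → Group.FG G →
      ∃ c, Finite ((⊤ : Subgroup G).lowerCentralSeries c))
    {G : Type} [Group G] (hG : InVar S G) (hfg : Group.FG G)
    (h : ¬ Group.IsNilpotent G) : ∃ (P : Type) (_ : Group P), InVar S P ∧ Proj S P ∧
      ¬ Countable P ∧ ∃ T : Set P, T.Finite ∧ normalClosure T = ⊤ := by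
  classical
  obtain ⟨c, hc⟩ := hF G hG hfg
  obtain ⟨K, hKf, hK0, hK⟩ := exists_stable2 hc h
  obtain ⟨X, hX1, hX2⟩ := Group.fg_iff.1 hfg
  have : Finite X := hX2
  obtain ⟨ev, hev⟩ := fr_lift (S := S) hG (Sum.elim Subtype.val K.subtype : X ⊕ K → G)
  obtain ⟨c', hc'⟩ := hF (Fr S (X ⊕ K)) (fr_inVar _)
    (Group.fg_iff.2 ⟨_, fr_closure _, Set.finite_range _⟩)
  obtain ⟨e1, i1, i2, i3, i4⟩ := exists_idem2 (Subtype.val : X → G)
    (by rw [Subtype.range_coe, hX1]) K hK hc' ev (fun g => hev _) (fun k => hev _)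
  have hV := fr_inVar (S := S) (X ⊕ ℝ × K)
  choose j hj using fun a : ℝ => fr_lift (S := S) hV
    (fun y : X ⊕ K => gen S (Sum.map id (Prod.mk a) y))
  obtain ⟨e, he⟩ := fr_lift (S := S) hV (Sum.elim (fun g => gen S (Sum.inl g))
    (fun p => j p.1 (e1 (gen S (Sum.inr p.2)))) : X ⊕ ℝ × K → _)
  have h1 : ∀ a, e.comp (j a) = (j a).comp e1 := fun a => fr_ext (by
    rintro (g | k)
    · simp [hj, he, i2]
    · simp [hj, he])
  have h2 : ∀ x, e (e x) = e x := DFunLike.congr_fun (f := e.comp e) (fr_ext (by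
    rintro (g | ⟨a, k⟩)
    · simp [he]
    · have := DFunLike.congr_fun (h1 a) (e1 (gen S (Sum.inr k)))
      simpa [he, i1] using this))
  refine ⟨e.range, inferInstance, hV.sub _, (fr_proj _).range e h2, fun hc => ?_,
    Set.range fun g => e.rangeRestrict (gen S (Sum.inl g)), Set.finite_range _, eq_top_iff.2 ?_⟩
  · have := K.nontrivial_iff_ne_bot.2 hK0
    obtain ⟨k0, hk0⟩ := exists_ne (1 : K)
    refine not_countable (α := ℝ) (Function.Injective.countable
      (f := fun a : ℝ => e.rangeRestrict (gen S (Sum.inr (a, k0)))) fun a b hab => ?_)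
    by_contra hne
    obtain ⟨θ, hθ⟩ := fr_lift (S := S) hG (Sum.elim Subtype.val
      (fun p => if p.1 = a then (p.2 : G) else 1) : X ⊕ ℝ × K → G)
    have h3 : θ.comp (j a) = ev := fr_ext (by
      rintro (g | k)
      · simp [hj, hθ, hev]
      · simp [hj, hθ, hev])
    have h4 : normalClosure (Set.range fun k => gen S (Sum.inr k)) ≤ (θ.comp (j b)).ker :=
      normalClosure_le_normal (by
        rintro _ ⟨k, rfl⟩
        simp [hj, hθ, Ne.symm hne])
    have h5 : j a (e1 (gen S (Sum.inr k0))) = j b (e1 (gen S (Sum.inr k0))) := by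
      simpa [he] using congrArg Subtype.val hab
    have h6 := DFunLike.congr_fun h3 (e1 (gen S (Sum.inr k0)))
    rw [MonoidHom.comp_apply, h5, i3, hev] at h6
    exact hk0 (Subtype.ext (h6.symm.trans (h4 (i4 k0).2)))
  · rintro ⟨_, x, rfl⟩ -
    have h3 : closure (Set.range (gen S : X ⊕ ℝ × K → _)) ≤ (normalClosure
        (Set.range fun g => e.rangeRestrict (gen S (Sum.inl g)))).comap e.rangeRestrict := by
      refine (closure_le _).2 ?_
      rintro _ ⟨g | ⟨a, k⟩, rfl⟩
      · exact subset_normalClosure ⟨g, rfl⟩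
      · have h4 : normalClosure (Set.range fun g => gen S (Sum.inl g)) ≤ (normalClosure
            (Set.range fun g => e.rangeRestrict (gen S (Sum.inl g)))).comap
            (e.rangeRestrict.comp (j a)) := normalClosure_le_normal (by
          rintro _ ⟨g, rfl⟩
          exact subset_normalClosure ⟨g, by simp [hj]⟩)
        have h5 := h4 (i4 k).1
        rw [mem_comap] at h5
        rw [SetLike.mem_coe, mem_comap]
        convert h5 using 1
        refine Subtype.ext ?_
        show e _ = e (j a _)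
        rw [← h2, he]
        rfl
    exact h3 (fr_closure (S := S) (X ⊕ ℝ × K) ▸ mem_top x)

end Pool.Agent.Lib.MP_b442e4_al.LF
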