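import Pool.Agent.Lib.MP_b442e4_al.LF.YZorn

/-!
In a locally finite variety whose finite groups are nilpotent, every projective group is a free
product, in the variety, of cyclic projective groups.
-/

set_option autoImplicit false

namespace Pool.Agent.Lib.MP_b442e4_al.LF

open Subgroup

theorem yComp {q a b : ℕ} [hq : Fact q.Prime] {Q : Type} [Group Q] (hQ : IsPGroup q Q)
    (co : a.Coprime b) (h : ∀ u : Q, u ^ (a * b) = 1) :
    (∀ u : Q, u ^ a = 1) ∨ ∀ u : Q, u ^ b = 1 := by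
  have key : ∀ a b : ℕ, (∀ u : Q, u ^ (a * b) = 1) → ¬ q ∣ b → ∀ u : Q, u ^ a = 1 := by
    intro a b h hb u
    obtain ⟨k, hk⟩ := IsPGroup.iff_orderOf.mp hQ u
    rw [← orderOf_dvd_iff_pow_eq_one]
    refine Nat.Coprime.dvd_of_dvd_mul_right ?_ (orderOf_dvd_iff_pow_eq_one.mpr (h u))
    rw [hk]
    exact Nat.Coprime.pow_left k ((Nat.Prime.coprime_iff_not_dvd hq.1).mpr hb)
  by_cases hb : q ∣ b
  · refine Or.inr (key b a (fun u => by rw [mul_comm, h]) fun ha => ?_)
    exact hq.1.one_lt.ne' (Nat.eq_one_of_dvd_coprimes co ha hb)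
  · exact Or.inl (key a b h hb)

theorem ypow_one {G : Type} [Group G] {a n : ℕ} (hn : n ≡ 1 [MOD a]) {u : G} (hu : u ^ a = 1) :
    u ^ n = u := by
  rw [pow_eq_pow_of_modEq hn hu, pow_one]

theorem ypow_zero {G : Type} [Group G] {a n : ℕ} (hn : n ≡ 0 [MOD a]) {u : G} (hu : u ^ a = 1) :
    u ^ n = 1 := by
  rw [pow_eq_pow_of_modEq hn hu, pow_zero]

theorem yLaw_fin {G : Type} [Group G] [Finite G] (hG : Group.IsNilpotent G) {a b n n' : ℕ}
    (co : a.Coprime b) (h : ∀ u : G, u ^ (a * b) = 1) (h1 : n ≡ 1 [MOD a]) (h2 : n ≡ 0 [MOD b])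
    (h3 : n' ≡ 0 [MOD a]) (g k : G) :
    (g * k) ^ n = g ^ n * k ^ n ∧ g ^ n * k ^ n' = k ^ n' * g ^ n := by
  obtain ⟨e⟩ := ((Group.isNilpotent_of_finite_tfae (G := G)).out 0 4).mp hG
  obtain ⟨g, rfl⟩ := e.surjective g
  obtain ⟨k, rfl⟩ := e.surjective k
  simp only [← map_mul, ← map_pow, e.injective.eq_iff, funext_iff, ← forall_and]
  intro q Q
  have : Fact q.1.Prime := ⟨Nat.prime_of_mem_primeFactors q.2⟩
  simp only [Pi.mul_apply, Pi.pow_apply]
  rcases yComp Q.isPGroup' co (fun u => Subtype.ext (h u)) with H | H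
  · simp only [ypow_one h1 (H _), ypow_zero h3 (H _), mul_one, one_mul, and_self]
  · simp only [ypow_zero h2 (H _), mul_one, one_mul, and_self]

variable {S : Set (FreeGroup ℕ)}

theorem yLaw (hfin : ∀ (G : Type) [Group G], yVar S G → Group.FG G → Finite G)
    (hnil : ∀ (G : Type) [Group G], yVar S G → Finite G → Group.IsNilpotent G)
    {G : Type} [Group G] (hG : yVar S G) {a b n n' : ℕ}
    (co : a.Coprime b) (h : ∀ u : G, u ^ (a * b) = 1) (h1 : n ≡ 1 [MOD a]) (h2 : n ≡ 0 [MOD b])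
    (h3 : n' ≡ 0 [MOD a]) (g k : G) :
    (g * k) ^ n = g ^ n * k ^ n ∧ g ^ n * k ^ n' = k ^ n' * g ^ n := by
  have hv := yVar_sub hG (closure {g, k})
  have hf := hfin _ hv (Group.closure_finite_fg _)
  have := yLaw_fin (hnil _ hv hf) co (fun u => Subtype.ext (h u)) h1 h2 h3
    ⟨g, subset_closure (by simp)⟩ ⟨k, subset_closure (by simp)⟩
  exact ⟨congrArg Subtype.val this.1, congrArg Subtype.val this.2⟩

theorem yVar_insert {G : Type} [Group G] {a : ℕ} :
    yVar (insert (FreeGroup.of 0 ^ a) S) G ↔ yVar S G ∧ ∀ g : G, g ^ a = 1 := by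
  constructor
  · refine fun h => ⟨fun w hw => h w (Or.inr hw), fun g => ?_⟩
    simpa using h _ (Or.inl rfl) (fun _ => g)
  · rintro ⟨h1, h2⟩ w (rfl | hw) f
    · simp [h2]
    · exact h1 w hw f

/-- `P` is the free product, in the variety, of the cyclic groups generated by a family. -/
def yCB (S : Set (FreeGroup ℕ)) (P : Type) [Group P] : Prop :=
  ∃ (B : Type) (b : B → P), closure (Set.range b) = ⊤ ∧
    ∀ (K : Type) [Group K], yVar S K → ∀ g : B → K, (∀ j, g j ^ orderOf (b j) = 1) →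
      ∃ θ : P →* K, ∀ j, θ (b j) = g j

theorem yHalf (hfin : ∀ (G : Type) [Group G], yVar S G → Group.FG G → Finite G)
    (hnil : ∀ (G : Type) [Group G], yVar S G → Finite G → Group.IsNilpotent G)
    {a b n : ℕ} (co : a.Coprime b)
    (hexp : ∀ (G : Type) [Group G], yVar S G → ∀ g : G, g ^ (a * b) = 1)
    (h1 : n ≡ 1 [MOD a]) (h2 : n ≡ 0 [MOD b])
    (ih : ∀ (P : Type) [Group P], yVar (insert (FreeGroup.of 0 ^ a) S) P →
      yProj (insert (FreeGroup.of 0 ^ a) S) P → yCB (insert (FreeGroup.of 0 ^ a) S) P)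
    (P : Type) [Group P] (hP : yVar S P) (hpr : yProj S P) :
    ∃ (B : Type) (x : B → P), (∀ j, x j ^ a = 1) ∧ (∀ g : P, g ^ n ∈ closure (Set.range x)) ∧
      ∀ (K : Type) [Group K], yVar S K → ∀ g : B → K, (∀ j, g j ^ orderOf (x j) = 1) →
        ∃ θ : P →* K, (∀ j, θ (x j) = g j) ∧ (∀ u, θ u ^ a = 1) ∧
          ∀ u : P, u ^ b = 1 → θ u = 1 := by
  have hπ : ∀ (G : Type) [Group G], yVar S G → ∃ π : G →* G, (∀ g, π g = g ^ n) ∧
      ∀ u : π.range, u ^ a = 1 := fun G _ hG => by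
    refine ⟨MonoidHom.mk' (fun g => g ^ n) fun g k =>
      (yLaw hfin hnil hG co (hexp G hG) h1 h2 (Nat.ModEq.refl 0) g k).1, fun _ => rfl, ?_⟩
    rintro ⟨_, g, rfl⟩
    apply Subtype.ext
    obtain ⟨c, rfl⟩ := (Nat.modEq_zero_iff_dvd).mp h2
    change (g ^ (b * c)) ^ a = 1
    rw [← pow_mul, show b * c * a = a * b * c by ring, pow_mul, hexp G hG, one_pow]
  obtain ⟨π, hπ1, hπ2⟩ := hπ P hP
  have hret : ∀ u : π.range, π.rangeRestrict u = u := fun u => Subtype.ext (by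
    rw [MonoidHom.coe_rangeRestrict, hπ1]
    exact ypow_one h1 (congrArg Subtype.val (hπ2 u)))
  obtain ⟨B, x, hx, hl⟩ := ih π.range (yVar_insert.mpr ⟨yVar_sub hP _, hπ2⟩) (by
    intro A B _ _ hA hB
    exact yProj_retract hpr π.range.subtype π.rangeRestrict hret A B
      (yVar_insert.mp hA).1 (yVar_insert.mp hB).1)
  refine ⟨B, fun j => x j, fun j => congrArg Subtype.val (hπ2 (x j)), fun g => ?_,
    fun K _ hK g hg => ?_⟩
  · have hm : π.rangeRestrict g ∈ closure (Set.range x) := by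
      rw [hx]
      trivial
    rw [← hπ1]
    refine ymap π.range.subtype ?_ hm
    rintro _ ⟨j, rfl⟩
    exact subset_closure ⟨j, rfl⟩
  · obtain ⟨π', hπ1', hπ2'⟩ := hπ K hK
    have hga : ∀ j, g j ^ a = 1 := fun j => by
      obtain ⟨c, hc⟩ : orderOf (x j : P) ∣ a :=
        orderOf_dvd_iff_pow_eq_one.mpr (congrArg Subtype.val (hπ2 (x j)))
      rw [hc, pow_mul, hg, one_pow]
    obtain ⟨θ, hθ⟩ := hl π'.range (yVar_insert.mpr ⟨yVar_sub hK _, hπ2'⟩)
      (fun j => ⟨g j, g j, by rw [hπ1', ypow_one h1 (hga j)]⟩) (fun j => Subtype.ext (by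
        have := hg j
        rw [Subgroup.orderOf_coe] at this
        exact this))
    refine ⟨π'.range.subtype.comp (θ.comp π.rangeRestrict), fun j => ?_, fun u => ?_,
      fun u hu => ?_⟩
    · simp only [MonoidHom.comp_apply, hret, hθ]
      rfl
    · exact congrArg Subtype.val (hπ2' _)
    · have : π.rangeRestrict u = 1 := Subtype.ext (by
        rw [MonoidHom.coe_rangeRestrict, hπ1]
        exact ypow_zero h2 hu)
      simp only [MonoidHom.comp_apply, this, map_one]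

theorem yCB_all (e : ℕ) : e ≠ 0 → ∀ S : Set (FreeGroup ℕ),
    (∀ (G : Type) [Group G], yVar S G → Group.FG G → Finite G) →
    (∀ (G : Type) [Group G], yVar S G → Finite G → Group.IsNilpotent G) →
    (∀ (G : Type) [Group G], yVar S G → ∀ g : G, g ^ e = 1) →
    ∀ (P : Type) [Group P], yVar S P → yProj S P → yCB S P := by
  induction e using Nat.recOnPrimeCoprime with
  | zero => exact fun h => (h rfl).elim
  | prime_pow p k hp =>
    intro _ S hfin _ hexp P _ hP hpr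
    have := Fact.mk hp
    obtain ⟨B, b, hb⟩ := yProj_free (p := p)
      (fun G _ hG hfg => ⟨hfin G hG hfg, fun g => ⟨k, hexp G hG g⟩⟩) P hP hpr
    exact ⟨B, b, hb.gen, fun K _ hK g _ => hb.lift K hK g⟩
  | coprime a b ha hb co iha ihb =>
    intro _ S hfin hnil hexp P _ hP hpr
    obtain ⟨n, h1, h2⟩ := Nat.chineseRemainder co 1 0
    obtain ⟨n', h3, h4⟩ := Nat.chineseRemainder co 0 1
    obtain ⟨B1, x1, hx1, hg1, hl1⟩ := yHalf hfin hnil co hexp h1 h2
      (iha (by omega) _ (fun G _ hG => hfin G (yVar_insert.mp hG).1)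
        (fun G _ hG => hnil G (yVar_insert.mp hG).1) (fun G _ hG => (yVar_insert.mp hG).2))
      P hP hpr
    obtain ⟨B2, x2, hx2, hg2, hl2⟩ := yHalf hfin hnil co.symm
      (fun G _ hG g => by rw [mul_comm]; exact hexp G hG g) h4 h3
      (ihb (by omega) _ (fun G _ hG => hfin G (yVar_insert.mp hG).1)
        (fun G _ hG => hnil G (yVar_insert.mp hG).1) (fun G _ hG => (yVar_insert.mp hG).2))
      P hP hpr
    refine ⟨B1 ⊕ B2, Sum.elim x1 x2, ?_, fun K _ hK g hg => ?_⟩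
    · rw [eq_top_iff]
      intro g _
      have hn : n + n' ≡ 1 [MOD a * b] :=
        (Nat.modEq_and_modEq_iff_modEq_mul co).mp ⟨h1.add h3, h2.add h4⟩
      rw [← ypow_one hn (hexp P hP g), pow_add, Set.Sum.elim_range]
      exact mul_mem (closure_mono Set.subset_union_left (hg1 g))
        (closure_mono Set.subset_union_right (hg2 g))
    · obtain ⟨θ1, e1, o1, z1⟩ := hl1 K hK (fun j => g (Sum.inl j)) (fun j => hg (Sum.inl j))
      obtain ⟨θ2, e2, o2, z2⟩ := hl2 K hK (fun j => g (Sum.inr j)) (fun j => hg (Sum.inr j))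
      have hc : ∀ u v, θ1 u * θ2 v = θ2 v * θ1 u := fun u v => by
        have := (yLaw hfin hnil hK co (hexp K hK) h1 h2 h3 (θ1 u) (θ2 v)).2
        rwa [ypow_one h1 (o1 u), ypow_one h4 (o2 v)] at this
      refine ⟨MonoidHom.mk' (fun u => θ1 u * θ2 u) fun u v => ?_, ?_⟩
      · rw [map_mul, map_mul, mul_assoc, mul_assoc, ← mul_assoc (θ1 v), hc v u, mul_assoc]
      · rintro (j | j)
        · change θ1 (x1 j) * θ2 (x1 j) = _
          rw [e1, z2 _ (hx1 j), mul_one]
        · change θ1 (x2 j) * θ2 (x2 j) = _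
          rw [e2, z1 _ (hx2 j), one_mul]

theorem yCB_of (hfin : ∀ (G : Type) [Group G], yVar S G → Group.FG G → Finite G)
    (hnil : ∀ (G : Type) [Group G], yVar S G → Finite G → Group.IsNilpotent G)
    (P : Type) [Group P] (hP : yVar S P) (hpr : yProj S P) : yCB S P := by
  obtain ⟨F, _, x, hF⟩ := yFree_exists S Unit
  have := hfin F hF.var (Group.fg_iff.mpr ⟨_, hF.gen, Set.finite_range x⟩)
  refine yCB_all (Nat.card F) Nat.card_pos.ne' S hfin hnil (fun G _ hG g => ?_) P hP hpr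
  obtain ⟨θ, hθ⟩ := hF.lift G hG (fun _ => g)
  rw [← hθ (), ← map_pow, pow_card_eq_one', map_one]

theorem yes_of_CB (S : Set (FreeGroup ℕ))
    (G : Type) [Group G] (hG : ∀ w ∈ S, ∀ f : ℕ → G, FreeGroup.lift f w = 1)
    (hpr : ∀ (A B : Type) [Group A] [Group B],
      (∀ w ∈ S, ∀ f : ℕ → A, FreeGroup.lift f w = 1) →
      (∀ w ∈ S, ∀ f : ℕ → B, FreeGroup.lift f w = 1) →
      ∀ (π : A →* B), Function.Surjective π →
        ∀ (φ : G →* B), ∃ ψ : G →* A, π.comp ψ = φ) (hcb : yCB S G) :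
    ∃ (I : Type) (H : I → Type) (_ : ∀ i, Group (H i)) (ι : ∀ i, H i →* G),
      (∀ i, IsCyclic (H i) ∧
        (∀ w ∈ S, ∀ f : ℕ → H i, FreeGroup.lift f w = 1) ∧
        (∃ s : Set (H i), s.Countable ∧ Subgroup.closure s = ⊤) ∧
        (∀ (A B : Type) [Group A] [Group B],
          (∀ w ∈ S, ∀ f : ℕ → A, FreeGroup.lift f w = 1) →
          (∀ w ∈ S, ∀ f : ℕ → B, FreeGroup.lift f w = 1) →
          ∀ (π : A →* B), Function.Surjective π →
            ∀ (φ : H i →* B), ∃ ψ : H i →* A, π.comp ψ = φ)) ∧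
      (∀ (K : Type) [Group K],
        (∀ w ∈ S, ∀ f : ℕ → K, FreeGroup.lift f w = 1) →
        ∀ g : ∀ i, H i →* K, ∃! θ : G →* K, ∀ i, θ.comp (ι i) = g i) := by
  classical
  obtain ⟨B, b, hb, hl⟩ := hcb
  let t : ∀ j, zpowers (b j) := fun j => ⟨b j, mem_zpowers _⟩
  have ht : ∀ j, t j ^ orderOf (b j) = 1 := fun j => Subtype.ext (pow_orderOf_eq_one _)
  have hext : ∀ j (K : Type) [Group K] (f g : zpowers (b j) →* K), f (t j) = g (t j) → f = g := by
    intro j K _ f g h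
    ext ⟨_, k, rfl⟩
    have : (⟨b j ^ k, k, rfl⟩ : zpowers (b j)) = t j ^ k := rfl
    rw [this, map_zpow, map_zpow, h]
  refine ⟨B, fun j => zpowers (b j), inferInstance, fun j => (zpowers (b j)).subtype,
    fun j => ⟨inferInstance, yVar_sub hG _, ⟨Set.univ, Set.countable_univ, closure_univ⟩, ?_⟩,
    fun K _ hK g => ?_⟩
  · obtain ⟨θ, hθ⟩ := hl (zpowers (b j)) (yVar_sub hG _) (fun i => if i = j then t j else 1)
      (fun i => by
        split_ifs with h
        · rw [h]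
          exact ht j
        · exact one_pow _)
    have h1 : θ.comp (zpowers (b j)).subtype = MonoidHom.id _ :=
      hext j _ _ _ (by simpa [t] using hθ j)
    exact yProj_retract hpr (zpowers (b j)).subtype θ fun h => DFunLike.congr_fun h1 h
  · obtain ⟨θ, hθ⟩ := hl K hK (fun j => g j (t j)) (fun j => by rw [← map_pow, ht, map_one])
    refine ⟨θ, fun j => hext j _ _ _ (hθ j), fun θ' h' => ?_⟩
    refine MonoidHom.eq_of_eqOn_dense hb ?_
    rintro _ ⟨j, rfl⟩
    rw [hθ, ← h' j]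
    rfl

/-- The positive half, in the wording of the posed question, with cyclic factors. -/
theorem yes_side (S : Set (FreeGroup ℕ))
    (hfin : ∀ (G : Type) [Group G], (∀ w ∈ S, ∀ f : ℕ → G, FreeGroup.lift f w = 1) →
      Group.FG G → Finite G)
    (hnil : ∀ (G : Type) [Group G], (∀ w ∈ S, ∀ f : ℕ → G, FreeGroup.lift f w = 1) →
      Finite G → Group.IsNilpotent G)
    (G : Type) [Group G] (hG : ∀ w ∈ S, ∀ f : ℕ → G, FreeGroup.lift f w = 1)
    (hpr : ∀ (A B : Type) [Group A] [Group B],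
      (∀ w ∈ S, ∀ f : ℕ → A, FreeGroup.lift f w = 1) →
      (∀ w ∈ S, ∀ f : ℕ → B, FreeGroup.lift f w = 1) →
      ∀ (π : A →* B), Function.Surjective π →
        ∀ (φ : G →* B), ∃ ψ : G →* A, π.comp ψ = φ) :
    ∃ (I : Type) (H : I → Type) (_ : ∀ i, Group (H i)) (ι : ∀ i, H i →* G),
      (∀ i, IsCyclic (H i) ∧
        (∀ w ∈ S, ∀ f : ℕ → H i, FreeGroup.lift f w = 1) ∧
        (∃ s : Set (H i), s.Countable ∧ Subgroup.closure s = ⊤) ∧
        (∀ (A B : Type) [Group A] [Group B],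
          (∀ w ∈ S, ∀ f : ℕ → A, FreeGroup.lift f w = 1) →
          (∀ w ∈ S, ∀ f : ℕ → B, FreeGroup.lift f w = 1) →
          ∀ (π : A →* B), Function.Surjective π →
            ∀ (φ : H i →* B), ∃ ψ : H i →* A, π.comp ψ = φ)) ∧
      (∀ (K : Type) [Group K],
        (∀ w ∈ S, ∀ f : ℕ → K, FreeGroup.lift f w = 1) →
        ∀ g : ∀ i, H i →* K, ∃! θ : G →* K, ∀ i, θ.comp (ι i) = g i) :=
  yes_of_CB S G hG hpr (yCB_of hfin hnil G hG hpr)

end Pool.Agent.Lib.MP_b442e4_al.LF
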