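import Mathlib

/-!
Relatively free groups, a dual form of the Burnside basis theorem, idempotent powers.
-/

set_option autoImplicit false

namespace Pool.Agent.Lib.MP_b442e4_al.LF

/-- `G` satisfies every law in `S`. -/
def yVar (S : Set (FreeGroup ℕ)) (G : Type) [Group G] : Prop :=
  ∀ w ∈ S, ∀ f : ℕ → G, FreeGroup.lift f w = 1

/-- The lifting property in the variety given by `S`. -/
def yProj (S : Set (FreeGroup ℕ)) (G : Type) [Group G] : Prop :=
  ∀ (A B : Type) [Group A] [Group B], yVar S A → yVar S B →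
    ∀ π : A →* B, Function.Surjective π → ∀ φ : G →* B, ∃ ψ : G →* A, π.comp ψ = φ

theorem ylift_map {G K : Type} [Group G] [Group K] (θ : G →* K) (f : ℕ → G)
    (r : FreeGroup ℕ) : θ (FreeGroup.lift f r) = FreeGroup.lift (fun n => θ (f n)) r := by
  have h : θ.comp (FreeGroup.lift f) = FreeGroup.lift (fun n => θ (f n)) := by
    ext n
    simp
  exact DFunLike.congr_fun h r

theorem yVar_sub {S : Set (FreeGroup ℕ)} {G : Type} [Group G] (hG : yVar S G)
    (H : Subgroup G) : yVar S H := by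
  intro w hw f
  apply H.subtype_injective
  rw [ylift_map, map_one]
  exact hG w hw _

theorem yProj_retract {S : Set (FreeGroup ℕ)} {G H : Type} [Group G] [Group H]
    (hG : yProj S G) (i : H →* G) (r : G →* H) (hr : ∀ h, r (i h) = h) : yProj S H := by
  intro A B _ _ hA hB π hπ φ
  obtain ⟨ψ, hψ⟩ := hG A B hA hB π hπ (φ.comp r)
  refine ⟨ψ.comp i, ?_⟩
  ext h
  have := DFunLike.congr_fun hψ (i h)
  simpa [hr] using this

/-- The verbal subgroup. -/
def yVerbal (S : Set (FreeGroup ℕ)) (G : Type) [Group G] : Subgroup G :=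
  Subgroup.closure {g | ∃ r ∈ S, ∃ f : ℕ → G, FreeGroup.lift f r = g}

theorem yVerbal_normal (S : Set (FreeGroup ℕ)) (G : Type) [Group G] : (yVerbal S G).Normal := by
  refine ⟨fun n hn g => ?_⟩
  have h : (yVerbal S G).map (MulAut.conj g).toMonoidHom ≤ yVerbal S G := by
    rw [yVerbal, MonoidHom.map_closure]
    refine Subgroup.closure_mono ?_
    rintro _ ⟨_, ⟨r, hr, f, rfl⟩, rfl⟩
    exact ⟨r, hr, _, (ylift_map _ f r).symm⟩
  exact h ⟨n, hn, rfl⟩

/-- `F` is free in the variety on the family `x`. -/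
structure yFree (S : Set (FreeGroup ℕ)) {X F : Type} [Group F] (x : X → F) : Prop where
  var : yVar S F
  gen : Subgroup.closure (Set.range x) = ⊤
  lift : ∀ (K : Type) [Group K], yVar S K → ∀ g : X → K, ∃ θ : F →* K, ∀ i, θ (x i) = g i

theorem yFree.ext {S : Set (FreeGroup ℕ)} {X F K : Type} [Group F] [Monoid K] {x : X → F}
    (h : yFree S x) {θ θ' : F →* K} (e : ∀ i, θ (x i) = θ' (x i)) : θ = θ' := by
  have h1 : Submonoid.closure (Set.range x ∪ (Set.range x)⁻¹) = ⊤ := by
    rw [← Subgroup.closure_toSubmonoid, h.gen, Subgroup.top_toSubmonoid]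
  refine MonoidHom.eq_of_eqOn_denseM h1 ?_
  rintro g (⟨i, rfl⟩ | hg)
  · exact e i
  · obtain ⟨i, hi⟩ := Set.mem_inv.mp hg
    have hg' : g = (x i)⁻¹ := by rw [hi, inv_inv]
    have h2 : θ (x i) * θ g = 1 := by rw [← map_mul, hg', mul_inv_cancel, map_one]
    have h3 : θ' g * θ' (x i) = 1 := by rw [← map_mul, hg', inv_mul_cancel, map_one]
    calc θ g = θ' g * θ' (x i) * θ g := by rw [h3, one_mul]
      _ = θ' g := by rw [mul_assoc, ← e i, h2, mul_one]

theorem yFree_exists (S : Set (FreeGroup ℕ)) (X : Type) :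
    ∃ (F : Type) (_ : Group F) (x : X → F), yFree S x := by
  have := yVerbal_normal S (FreeGroup X)
  refine ⟨FreeGroup X ⧸ yVerbal S (FreeGroup X), inferInstance,
    fun i => QuotientGroup.mk' _ (FreeGroup.of i), ?_, ?_, ?_⟩
  · intro r hr f
    choose f' hf' using fun n => QuotientGroup.mk'_surjective (yVerbal S (FreeGroup X)) (f n)
    have e : f = fun n => QuotientGroup.mk' _ (f' n) := funext fun n => (hf' n).symm
    rw [e, ← ylift_map, QuotientGroup.mk'_apply, QuotientGroup.eq_one_iff]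
    exact Subgroup.subset_closure ⟨r, hr, f', rfl⟩
  · have h : (Set.range fun i : X => QuotientGroup.mk' (yVerbal S (FreeGroup X)) (FreeGroup.of i))
        = QuotientGroup.mk' (yVerbal S (FreeGroup X)) '' Set.range FreeGroup.of := by
      rw [← Set.range_comp]
      rfl
    rw [h, ← MonoidHom.map_closure, FreeGroup.closure_range_of, ← MonoidHom.range_eq_map,
      MonoidHom.range_eq_top]
    exact QuotientGroup.mk'_surjective _
  · intro K _ hK g
    have hle : yVerbal S (FreeGroup X) ≤ (FreeGroup.lift g).ker := by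
      refine (Subgroup.closure_le _).mpr ?_
      rintro _ ⟨r, hr, f, rfl⟩
      rw [SetLike.mem_coe, MonoidHom.mem_ker, ylift_map]
      exact hK r hr _
    exact ⟨QuotientGroup.lift _ (FreeGroup.lift g) hle, fun i => by simp⟩

/-- A proper subgroup of a finite `p`-group is killed by a nontrivial character to `Z / p`. -/
theorem yBurnside {p : ℕ} [hp : Fact p.Prime] {H : Type} [Group H] [Finite H]
    (hH : IsPGroup p H) (L : Subgroup H) (hL : L ≠ ⊤) :
    ∃ χ : H →* Multiplicative (ZMod p), (∀ h ∈ L, χ h = 1) ∧ ∃ h, χ h ≠ 1 := by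
  obtain ⟨M, hM, hLM⟩ := (eq_top_or_exists_le_coatom L).resolve_left hL
  have := hH.isNilpotent
  have : M.Normal :=
    Subgroup.NormalizerCondition.normal_of_coatom M Group.normalizerCondition_of_isNilpotent hM
  have hQ := hH.to_quotient M
  have hne : Nat.card (H ⧸ M) ≠ 1 := by
    intro h
    exact hM.1 (Subgroup.index_eq_one.mp h)
  obtain ⟨q, hq⟩ := exists_prime_orderOf_dvd_card' (G := H ⧸ M) p
    (hQ.card_eq_or_dvd.resolve_left hne)
  have hq1 : q ≠ 1 := by
    rintro rfl
    rw [orderOf_one] at hq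
    exact hp.1.one_lt.ne hq
  obtain ⟨h0, rfl⟩ := QuotientGroup.mk'_surjective M q
  have htop : (Subgroup.zpowers (QuotientGroup.mk' M h0)).comap (QuotientGroup.mk' M) = ⊤ := by
    apply hM.2
    refine lt_of_le_of_ne (fun m hm => ?_) (fun e => hq1 ?_)
    · have h1 : QuotientGroup.mk' M m = 1 := (QuotientGroup.eq_one_iff m).mpr hm
      rw [Subgroup.mem_comap, h1]
      exact one_mem _
    · rw [QuotientGroup.mk'_apply, QuotientGroup.eq_one_iff, e, Subgroup.mem_comap]
      exact Subgroup.mem_zpowers _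
  have hz : Subgroup.zpowers (QuotientGroup.mk' M h0) = ⊤ := by
    rw [eq_top_iff]
    intro y _
    obtain ⟨y, rfl⟩ := QuotientGroup.mk'_surjective M y
    have : y ∈ (Subgroup.zpowers (QuotientGroup.mk' M h0)).comap (QuotientGroup.mk' M) := by
      rw [htop]
      trivial
    exact this
  have hc : Nat.card (H ⧸ M) = p := by
    rw [← hq, ← Nat.card_zpowers, hz, Subgroup.card_top]
  let e : (H ⧸ M) ≃* Multiplicative (ZMod p) := mulEquivOfPrimeCardEq hc (by simp)
  refine ⟨e.toMonoidHom.comp (QuotientGroup.mk' M), fun h hh => ?_, h0, fun h => hq1 ?_⟩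
  · have : QuotientGroup.mk' M h = 1 := (QuotientGroup.eq_one_iff h).mpr (hLM hh)
    simp only [MonoidHom.comp_apply, this, map_one]
  · apply e.injective
    rw [map_one]
    exact h

theorem yIdem_aux {M : Type} [Monoid M] (a : M) (m n : ℕ) (hmn : m < n) (h : a ^ m = a ^ n) :
    ∃ k, a ^ (k + 1) * a ^ (k + 1) = a ^ (k + 1) := by
  obtain ⟨d, rfl⟩ := Nat.exists_eq_add_of_lt hmn
  have h1 : ∀ j, a ^ (m + j * (d + 1)) = a ^ m := by
    intro j
    induction j with
    | zero => simp
    | succ j ih =>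
      have : m + (j + 1) * (d + 1) = (m + d + 1) + j * (d + 1) := by ring
      rw [this, pow_add, ← h, ← pow_add, ih]
  refine ⟨m + (m + 1) * d, ?_⟩
  have e1 : m + (m + 1) * d + 1 + (m + (m + 1) * d + 1)
      = (m + (m + 1) * (d + 1)) + ((m + 1) * d + 1) := by ring
  rw [← pow_add, e1, pow_add, h1, ← pow_add, add_assoc]

/-- An endomorphism with finite image has an idempotent power. -/
theorem yIdem {F : Type} [Group F] (φ : Monoid.End F) (G : Subgroup F) [Finite G]
    (h : ∀ f, φ f ∈ G) : ∃ k, φ ^ (k + 1) * φ ^ (k + 1) = φ ^ (k + 1) := by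
  have hm : ∀ n f, (φ ^ (n + 1)) f ∈ G := fun n f => by
    rw [pow_succ']
    exact h _
  obtain ⟨m, n, hmn, e⟩ := Finite.exists_ne_map_eq_of_infinite
    (fun n : ℕ => fun g : G => (⟨(φ ^ (n + 1)) g, hm n g⟩ : G))
  have e2 : φ ^ (m + 1 + 1) = φ ^ (n + 1 + 1) := by
    refine MonoidHom.ext fun f => ?_
    have := congrArg Subtype.val (congrFun e ⟨φ f, h f⟩)
    rw [pow_succ φ (m + 1), pow_succ φ (n + 1)]
    exact this
  rcases lt_or_gt_of_ne hmn with h1 | h1
  · exact yIdem_aux φ _ _ (by omega) e2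
  · exact yIdem_aux φ _ _ (by omega) e2.symm

end Pool.Agent.Lib.MP_b442e4_al.LF
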