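import Pool.Agent.Lib.MP_b442e4_al.LF.YBase

/-!
Independence modulo the Frattini subgroup, in dual form, and freeness of independent families.
-/

set_option autoImplicit false

namespace Pool.Agent.Lib.MP_b442e4_al.LF

open Subgroup

/-- Characters to `Z / p` that kill the generators in `X0` take arbitrary values on every finite
subset of `B`. -/
def yInd (p : ℕ) {X F : Type} [Group F] (x : X → F) (X0 : Set X) (B : Set F) : Prop :=
  ∀ D : Finset F, ↑D ⊆ B → ∀ c : F → Multiplicative (ZMod p),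
    ∃ χ : F →* Multiplicative (ZMod p), (∀ i ∈ X0, χ (x i) = 1) ∧ ∀ d ∈ D, χ d = c d

variable {p : ℕ} [hp : Fact p.Prime] {X F : Type} [Group F] {x : X → F}

theorem yC_pow {a : Multiplicative (ZMod p)} (ha : a ≠ 1) (b : Multiplicative (ZMod p)) :
    ∃ m : ℕ, a ^ m = b :=
  mem_powers_of_prime_card (p := p) (by simp) ha

theorem ykill {C : Type} [Group C] (χ : F →* C) {s : Set F} (h : ∀ a ∈ s, χ a = 1) {f : F}
    (hf : f ∈ closure s) : χ f = 1 :=
  (closure_le χ.ker).mpr h hf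

theorem ymap {C : Type} [Group C] (χ : F →* C) {s : Set F} {K : Subgroup C}
    (h : ∀ a ∈ s, χ a ∈ K) {f : F} (hf : f ∈ closure s) : χ f ∈ K :=
  (closure_le (K.comap χ)).mpr h hf

theorem yInd_insert {X0 : Set X} {U : Set F} (hU : yInd p x X0 U)
    (χ' : F →* Multiplicative (ZMod p)) (h0 : ∀ i ∈ X0, χ' (x i) = 1) (h1 : ∀ u ∈ U, χ' u = 1)
    {h : F} (hh : χ' h ≠ 1) : yInd p x X0 (insert h U) := by
  classical
  intro D hD c
  obtain ⟨χ, hχ0, hχ⟩ := hU (D.erase h) (fun d hd => by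
    rw [Finset.mem_coe, Finset.mem_erase] at hd
    exact (hD hd.2).resolve_left hd.1) c
  obtain ⟨m, hm⟩ := yC_pow hh ((χ h)⁻¹ * c h)
  refine ⟨χ * χ' ^ m, fun i hi => by simp [hχ0 i hi, h0 i hi], fun d hd => ?_⟩
  by_cases e : d = h
  · subst e
    simp [hm]
  · have hdU : d ∈ U := (hD hd).resolve_left e
    simp [h1 d hdU, hχ d (Finset.mem_erase.mpr ⟨e, hd⟩)]

omit hp in
theorem yInd_union {X0 : Set X} {B U : Set F} (hB : yInd p x ∅ B)
    (hB0 : ∀ b ∈ B, b ∈ closure (x '' X0)) (hU : yInd p x X0 U) : yInd p x ∅ (B ∪ U) := by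
  classical
  intro D hD c
  obtain ⟨χ1, -, h1⟩ := hB (D.filter (· ∈ B)) (fun d hd => (Finset.mem_filter.mp hd).2) c
  obtain ⟨χ2, h20, h2⟩ := hU (D.filter (· ∉ B)) (fun d hd =>
    (hD (Finset.mem_filter.mp hd).1).resolve_left (Finset.mem_filter.mp hd).2)
    (fun f => (χ1 f)⁻¹ * c f)
  refine ⟨χ1 * χ2, fun i hi => hi.elim, fun d hd => ?_⟩
  by_cases e : d ∈ B
  · have : χ2 d = 1 := ykill χ2 (by rintro _ ⟨i, hi, rfl⟩; exact h20 i hi) (hB0 d e)
    simp [this, h1 d (Finset.mem_filter.mpr ⟨hd, e⟩)]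
  · simp [h2 d (Finset.mem_filter.mpr ⟨hd, e⟩)]

/-- Extension of an independent set inside a finite retract. -/
theorem yExt {X0 : Set X} (η : F →* F) (hη : ∀ f, η (η f) = η f) [Finite η.range]
    (hH : IsPGroup p η.range) (h0 : ∀ i ∈ X0, η (x i) ∈ closure (x '' X0))
    (A : Finset F) (hA : ∀ a ∈ A, η a = a) (hI : yInd p x X0 A) :
    ∃ U : Finset F, A ⊆ U ∧ (∀ u ∈ U, η u = u) ∧ yInd p x X0 U ∧
      ∀ f, η f ∈ closure (x '' X0 ∪ U) := by
  classical
  have hfin : (η.range : Set F).Finite := Set.toFinite _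
  obtain ⟨U, hU, hmax⟩ := Finset.exists_max_image
    (hfin.toFinset.powerset.filter fun U => A ⊆ U ∧ yInd p x X0 U) Finset.card
    ⟨A, Finset.mem_filter.mpr ⟨Finset.mem_powerset.mpr fun a ha =>
      hfin.mem_toFinset.mpr ⟨a, hA a ha⟩, subset_rfl, hI⟩⟩
  obtain ⟨hU1, hU2, hU3⟩ := Finset.mem_filter.mp hU
  have hUr : ∀ u ∈ U, u ∈ η.range := fun u hu =>
    hfin.mem_toFinset.mp (Finset.mem_powerset.mp hU1 hu)
  have hfix : ∀ u ∈ η.range, η u = u := by
    rintro _ ⟨f, rfl⟩
    exact hη f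
  refine ⟨U, hU2, fun u hu => hfix u (hUr u hu), hU3, fun f => ?_⟩
  by_cases hL : (closure ((fun i => η (x i)) '' X0 ∪ U)).subgroupOf η.range = ⊤
  · have h1 : (⟨η f, f, rfl⟩ : η.range) ∈
        (closure ((fun i => η (x i)) '' X0 ∪ U)).subgroupOf η.range := by
      rw [hL]
      trivial
    refine (closure_le _).mpr ?_ (mem_subgroupOf.mp h1)
    rintro _ (⟨i, hi, rfl⟩ | hu)
    · exact closure_mono Set.subset_union_left (h0 i hi)
    · exact subset_closure (Or.inr hu)
  · exfalso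
    obtain ⟨χ, hχ, h, hh⟩ := yBurnside hH _ hL
    have e1 : ∀ u ∈ U, (χ.comp η.rangeRestrict) u = 1 := fun u hu => by
      refine hχ _ (mem_subgroupOf.mpr (subset_closure (Or.inr ?_)))
      rw [MonoidHom.coe_rangeRestrict, hfix u (hUr u hu)]
      exact hu
    have e2 : (χ.comp η.rangeRestrict) h ≠ 1 := by
      have : η.rangeRestrict h = h := Subtype.ext (hfix _ h.2)
      rw [MonoidHom.comp_apply, this]
      exact hh
    have hI' := yInd_insert hU3 (χ.comp η.rangeRestrict) (fun i hi =>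
      hχ _ (mem_subgroupOf.mpr (subset_closure (Or.inl ⟨i, hi, rfl⟩)))) e1 e2
    have hn : (h : F) ∉ U := fun hu => e2 (e1 _ hu)
    have := hmax (insert (h : F) U) (Finset.mem_filter.mpr ⟨Finset.mem_powerset.mpr
      (Finset.insert_subset (hfin.mem_toFinset.mpr h.2) (Finset.mem_powerset.mp hU1)),
      hU2.trans (Finset.subset_insert _ _), by rwa [Finset.coe_insert]⟩)
    rw [Finset.card_insert_of_notMem hn] at this
    omega

theorem ysupp (h : closure (Set.range x) = ⊤) (f : F) :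
    ∃ T : Finset X, f ∈ closure (x '' T) := by
  classical
  have hf : f ∈ closure (Set.range x) := by
    rw [h]
    trivial
  induction hf using closure_induction with
  | mem a ha =>
    obtain ⟨i, rfl⟩ := ha
    exact ⟨{i}, subset_closure ⟨i, by simp, rfl⟩⟩
  | one => exact ⟨∅, one_mem _⟩
  | mul a b _ _ ha hb =>
    obtain ⟨T1, h1⟩ := ha
    obtain ⟨T2, h2⟩ := hb
    exact ⟨T1 ∪ T2, mul_mem (closure_mono (Set.image_mono (by simp)) h1)
      (closure_mono (Set.image_mono (by simp)) h2)⟩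
  | inv a _ ha =>
    obtain ⟨T, h⟩ := ha
    exact ⟨T, inv_mem h⟩

/-- An independent family is free. -/
theorem yInj {S : Set (FreeGroup ℕ)}
    (hS : ∀ (G : Type) [Group G], yVar S G → Group.FG G → Finite G ∧ IsPGroup p G)
    (hF : yFree S x) {B : Set F} (hB : yInd p x ∅ B) {W : Type} [Group W] {w : B → W}
    (hW : yFree S w) (τ : W →* F) (hτ : ∀ b, τ (w b) = b) : Function.Injective τ := by
  classical
  refine (injective_iff_map_eq_one τ).mpr fun v hv => ?_
  obtain ⟨D, hD⟩ := ysupp hW.gen v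
  have hfg : Group.FG (closure (w '' D)) := Group.closure_finite_fg _
  obtain ⟨hfin, hP⟩ := hS _ (yVar_sub hW.var (closure (w '' D))) hfg
  obtain ⟨c0, hc0⟩ := exists_ne (1 : Multiplicative (ZMod p))
  have hχ : ∀ d : B, ∃ χ : F →* Multiplicative (ZMod p),
      ∀ d' ∈ D, χ d' = if d' = d then c0 else 1 := fun d => by
    obtain ⟨χ, -, h⟩ := hB (D.image Subtype.val) (fun a ha => by
      obtain ⟨b, -, rfl⟩ := Finset.mem_image.mp ha
      exact b.2) (fun f => if f = d then c0 else 1)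
    refine ⟨χ, fun d' hd' => ?_⟩
    rw [h _ (Finset.mem_image_of_mem _ hd')]
    simp only [Subtype.val_inj]
  choose χ hχ using hχ
  choose n hn using fun (d : B) (i : X) => yC_pow hc0 (χ d (x i))
  let u : D → closure (w '' D) := fun d => ⟨w d, subset_closure ⟨d, d.2, rfl⟩⟩
  obtain ⟨σ, hσ⟩ := hF.lift _ (yVar_sub hW.var (closure (w '' D)))
    (fun i => ((Finset.univ : Finset D).toList.map fun d => u d ^ n d i).prod)
  let κ : closure (w '' D) →* closure (w '' D) := σ.comp (τ.comp (closure (w '' D)).subtype)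
  have hsurj : Function.Surjective κ := by
    rw [← MonoidHom.range_eq_top]
    by_contra hne
    obtain ⟨ψ, hψ, h, hh⟩ := yBurnside hP _ hne
    choose m hm using fun d : D => yC_pow hc0 (ψ (u d))
    have e : ψ.comp σ = ∏ d : D, χ d ^ m d := hF.ext fun i => by
      rw [MonoidHom.comp_apply, hσ, map_list_prod, List.map_map, Finset.prod_map_toList,
        MonoidHom.finsetProd_apply]
      refine Finset.prod_congr rfl fun d _ => ?_
      rw [Function.comp_apply, map_pow, ← hm, MonoidHom.pow_apply, ← hn, ← pow_mul, ← pow_mul,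
        mul_comm]
    have e1 : ∀ d : D, ψ (u d) = 1 := fun d => by
      have h1 : ψ (κ (u d)) = 1 := hψ _ ⟨_, rfl⟩
      have h2 : ψ (κ (u d)) = (ψ.comp σ) (d : B) := by
        rw [← hτ]
        rfl
      rw [h2, e, MonoidHom.finsetProd_apply, Finset.prod_eq_single d] at h1
      · rw [MonoidHom.pow_apply, hχ d d d.2, if_pos rfl, hm] at h1
        exact h1
      · intro b _ hb
        rw [MonoidHom.pow_apply, hχ b d d.2, if_neg (fun e => hb (Subtype.ext e.symm)), one_pow]
      · simp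
    apply hh
    have e2 : ψ = 1 := by
      refine MonoidHom.eq_of_eqOn_dense closure_closure_coe_preimage ?_
      rintro ⟨_, h'⟩ ⟨d, hd, rfl⟩
      exact e1 ⟨d, hd⟩
    rw [e2]
    rfl
  have hinj := Finite.injective_iff_surjective.mpr hsurj
  have h1 : κ ⟨v, hD⟩ = κ 1 := by
    rw [map_one]
    change σ (τ v) = 1
    rw [hv, map_one]
  exact congrArg Subtype.val (hinj h1)

end Pool.Agent.Lib.MP_b442e4_al.LF
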