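import Pool.Agent.Lib.MP_b442e4_al.LF.YZorn

/-!
Generation lemmas in nilpotent groups.
-/

set_option autoImplicit false

namespace Pool.Agent.Lib.MP_b442e4_al.LF

open Subgroup
open scoped commutatorElement

variable {G : Type} [Group G]

theorem yComm_le {K L : Subgroup G} {m : ℕ} (h : K ≤ L ⊔ Subgroup.lowerCentralSeries ⊤ m) :
    ⁅K, K⁆ ≤ L ⊔ Subgroup.lowerCentralSeries ⊤ (m + 1) := by
  refine commutator_le.mpr fun a ha b hb => ?_
  obtain ⟨l, hl, c, hc, rfl⟩ := mem_sup_of_normal_right.mp (h ha)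
  obtain ⟨l', hl', c', hc', rfl⟩ := mem_sup_of_normal_right.mp (h hb)
  let q := QuotientGroup.mk' (Subgroup.lowerCentralSeries (⊤ : Subgroup G) (m + 1))
  have hq : ∀ c ∈ Subgroup.lowerCentralSeries (⊤ : Subgroup G) m, ∀ g, q c * q g = q g * q c := by
    intro c hc g
    rw [← commutatorElement_eq_one_iff_mul_comm, ← map_commutatorElement]
    exact (QuotientGroup.eq_one_iff _).mpr (commutator_mem_commutator hc (mem_top g))
  have e : q ⁅l, l'⁆ = q ⁅l * c, l' * c'⁆ := by
    have h1 := hq c hc (l' * c')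
    have h2 := hq c' hc' l⁻¹
    simp only [map_mul, map_inv, commutatorElement_def] at h1 h2 ⊢
    calc q l * q l' * (q l)⁻¹ * (q l')⁻¹
        = q l * q l' * ((q l)⁻¹ * q c') * (q c')⁻¹ * (q l')⁻¹ := by group
      _ = q l * (q l' * q c' * q c) * (q c)⁻¹ * (q l)⁻¹ * (q c')⁻¹ * (q l')⁻¹ := by
        rw [← h2]; group
      _ = _ := by rw [← h1]; group
  have h3 : ⁅l, l'⁆⁻¹ * ⁅l * c, l' * c'⁆ ∈ Subgroup.lowerCentralSeries (⊤ : Subgroup G) (m + 1) :=
    QuotientGroup.eq.mp e
  have h4 : ⁅l, l'⁆ ∈ L := by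
    rw [commutatorElement_def]
    exact mul_mem (mul_mem (mul_mem hl hl') (inv_mem hl)) (inv_mem hl')
  have := mul_mem (mem_sup_left h4 : _ ∈ L ⊔ Subgroup.lowerCentralSeries ⊤ (m + 1)) (mem_sup_right h3)
  rwa [mul_inv_cancel_left] at this

theorem ySurj (hG : Group.IsNilpotent G) {L : Subgroup G} (h : ⊤ ≤ L ⊔ commutator G) :
    L = ⊤ := by
  obtain ⟨c, hc⟩ := Subgroup.nilpotent_iff_lowerCentralSeries.mp hG
  have : ∀ m, ⊤ ≤ L ⊔ Subgroup.lowerCentralSeries ⊤ m := by
    intro m
    induction m with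
    | zero => exact le_sup_right
    | succ m ih => exact h.trans (sup_le le_sup_left (yComm_le ih))
  have h1 := this c
  rwa [hc, sup_bot_eq, top_le_iff] at h1

theorem yAb (L : Subgroup G) : ∃ (C : Type) (_ : CommGroup C) (q : G →* C),
    ∀ g, q g = 1 ↔ g ∈ L ⊔ commutator G := by
  refine ⟨Abelianization G ⧸ L.map Abelianization.of, inferInstance,
    (QuotientGroup.mk' _).comp Abelianization.of, fun g => ?_⟩
  rw [MonoidHom.comp_apply, QuotientGroup.mk'_apply, QuotientGroup.eq_one_iff, ← mem_comap,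
    comap_map_eq, Abelianization.ker_of]

/-- Convergence of the images of the powers of an endomorphism of a nilpotent group. -/
theorem yConv (hG : Group.IsNilpotent G) (φ : Monoid.End G) (S : Subgroup G)
    (hS : ∀ s ∈ S, φ s ∈ S) (B : Set G) (h1 : ∀ g, φ g ∈ closure B ⊔ S ⊔ commutator G)
    (h2 : ∀ b ∈ B, b⁻¹ * φ b ∈ S ⊔ commutator G) :
    ∃ k : ℕ, ∀ g, (φ ^ k) g ∈ closure ((φ ^ (k + 1) : Monoid.End G) '' B) ⊔ S := by
  obtain ⟨c, hc⟩ := Subgroup.nilpotent_iff_lowerCentralSeries.mp hG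
  let f : ℕ → G →* G := fun k => (φ ^ k : Monoid.End G)
  have hf : ∀ k g, f (k + 1) g = f k (φ g) := fun k g => by
    change (φ ^ (k + 1)) g = _
    rw [pow_succ]
    rfl
  let L : ℕ → Subgroup G := fun k => closure (f k '' B) ⊔ S
  let H : ℕ → Subgroup G := fun k => (f k).range ⊔ S
  have hS' : ∀ k, S.map (f k) ≤ S := by
    rintro k _ ⟨s, hs, rfl⟩
    exact ypow_mem φ S hS k s hs
  have hC : ∀ k, (commutator G).map (f k) ≤ ⁅H k, H k⁆ := fun k => by
    rw [commutator_def, map_commutator, ← MonoidHom.range_eq_map]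
    exact commutator_mono le_sup_left le_sup_left
  have ha : ∀ k, H (k + 1) ≤ L k ⊔ ⁅H k, H k⁆ := fun k => by
    refine sup_le ?_ (le_sup_right.trans le_sup_left)
    rintro _ ⟨g, rfl⟩
    have := mem_map_of_mem (f k) (h1 g)
    rw [Subgroup.map_sup, Subgroup.map_sup, MonoidHom.map_closure, ← hf] at this
    exact sup_le_sup (sup_le_sup_left (hS' k) _) (hC k) this
  have hb : ∀ k, L k ≤ L (k + 1) ⊔ ⁅H k, H k⁆ := fun k => by
    refine sup_le ((closure_le _).mpr ?_) (le_sup_right.trans le_sup_left)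
    rintro _ ⟨b, hb, rfl⟩
    have h3 := mem_map_of_mem (f k) (h2 b hb)
    rw [Subgroup.map_sup, map_mul, map_inv, ← hf] at h3
    have h4 : (f k b)⁻¹ * f (k + 1) b ∈ L (k + 1) ⊔ ⁅H k, H k⁆ :=
      sup_le_sup ((hS' k).trans le_sup_right) (hC k) h3
    have h5 : f (k + 1) b ∈ L (k + 1) ⊔ ⁅H k, H k⁆ :=
      mem_sup_left (mem_sup_left (subset_closure ⟨b, hb, rfl⟩))
    have h6 := mul_mem h5 (inv_mem h4)
    rwa [mul_inv_rev, inv_inv, mul_inv_cancel_left] at h6
  have hP : ∀ m k, m ≤ k → H k ≤ L (k + 1) ⊔ Subgroup.lowerCentralSeries ⊤ m := by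
    intro m
    induction m with
    | zero => exact fun k _ => le_top.trans le_sup_right
    | succ m ih =>
      intro k hk
      obtain ⟨k, rfl⟩ : ∃ j, k = j + 1 := ⟨k - 1, by omega⟩
      have e1 := yComm_le (ih k (by omega))
      have e2 := yComm_le (ih (k + 1) (by omega))
      have e3 : L (k + 1) ≤ L (k + 1 + 1) ⊔ Subgroup.lowerCentralSeries ⊤ (m + 1) :=
        (hb (k + 1)).trans (sup_le le_sup_left e2)
      have e4 : H (k + 1) ≤ L (k + 1) ⊔ Subgroup.lowerCentralSeries ⊤ (m + 1) :=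
        (ha k).trans (sup_le ((hb k).trans (sup_le le_sup_left e1)) e1)
      exact e4.trans (sup_le e3 le_sup_right)
  refine ⟨c, fun g => ?_⟩
  have := hP c c le_rfl (mem_sup_left ⟨g, rfl⟩)
  rwa [hc, sup_bot_eq] at this

theorem yWord {ι : Type} (D : Finset ι) (u : ι → G) (n : ι → ℤ) :
    ∃ g ∈ closure (u '' D), ∀ (C : Type) [CommGroup C] (ψ : G →* C),
      ψ g = ∏ d ∈ D, ψ (u d) ^ n d := by
  refine ⟨(D.toList.map fun d => u d ^ n d).prod, list_prod_mem ?_, fun C _ ψ => ?_⟩
  · intro a ha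
    obtain ⟨d, hd, rfl⟩ := List.mem_map.mp ha
    exact Subgroup.zpow_mem _ (Subgroup.subset_closure (Set.mem_image_of_mem u (Finset.mem_toList.mp hd))) _
  · rw [map_list_prod, List.map_map, Finset.prod_map_toList]
    exact Finset.prod_congr rfl fun d _ => map_zpow _ _ _

/-- A finitely generated solvable torsion group is finite. -/
theorem yFinite [Group.IsSolvable G] [Group.FG G] (h : IsMulTorsion G) : Finite G := by
  obtain ⟨n, hn⟩ := Group.IsSolvable.solvable (G := G)
  have key : ∀ m, (derivedSeries G m).FiniteIndex := by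
    intro m
    induction m with
    | zero => exact (inferInstance : (⊤ : Subgroup G).FiniteIndex)
    | succ m ih =>
      have h0 : Group.FG (Abelianization (derivedSeries G m)) :=
        Group.fg_of_surjective (f := Abelianization.of) QuotientGroup.mk_surjective
      have h1 : Finite (Abelianization (derivedSeries G m)) :=
        CommGroup.finite_of_fg_isMulTorsion _
          (IsMulTorsion.of_surjective (f := Abelianization.of) QuotientGroup.mk_surjective
            (IsMulTorsion.subgroup h _))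
      have h2 : (commutator (derivedSeries G m)).index ≠ 0 :=
        (Nat.card_pos (α := Abelianization (derivedSeries G m))).ne'
      refine ⟨?_⟩
      rw [derivedSeries_succ, ← map_subtype_commutator, index_map_subtype]
      exact mul_ne_zero h2 ih.1
  have := (key n).1
  rw [hn, index_bot] at this
  exact Nat.finite_of_card_ne_zero this

end Pool.Agent.Lib.MP_b442e4_al.LF
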