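import Pool.Agent.Lib.MP_b442e4_al.LF.YZero

/-!
In a locally nilpotent variety of exponent zero every projective group is free.
-/

set_option autoImplicit false

namespace Pool.Agent.Lib.MP_b442e4_al.LF

open Subgroup Multiplicative

variable {X F : Type} [Group F] {x : X → F} {S : Set (FreeGroup ℕ)}

theorem yCoord (hF : yFree S x) (T : Finset X) : ∃ π : F →* F,
    (∀ f, π f ∈ closure (x '' T)) ∧ (∀ f ∈ closure (x '' T), π f = f) ∧
      ∀ X0 : Set X, ∀ f ∈ closure (x '' X0), π f ∈ closure (x '' X0) := by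
  classical
  obtain ⟨π, hπ⟩ := hF.lift F hF.var (fun i => if i ∈ T then x i else 1)
  refine ⟨π, fun f => ?_, fun f hf => ?_, fun X0 f hf => ?_⟩
  · refine ymap π (s := Set.range x) ?_ (by rw [hF.gen]; trivial)
    rintro _ ⟨i, rfl⟩
    rw [hπ]
    split_ifs with hi
    · exact subset_closure ⟨i, hi, rfl⟩
    · exact one_mem _
  · refine MonoidHom.eqOn_closure (f := π) (g := MonoidHom.id F) ?_ hf
    rintro _ ⟨i, hi, rfl⟩
    rw [hπ, if_pos (Finset.mem_coe.mp hi)]
    rfl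
  · refine ymap π ?_ hf
    rintro _ ⟨i, hi, rfl⟩
    rw [hπ]
    split_ifs
    · exact subset_closure ⟨i, hi, rfl⟩
    · exact one_mem _

theorem yKap {C : Type} [CommGroup C] (ε : F →* F) (ψ : F →* C) :
    ∃ K : F →* C, ∀ f, K f = ψ ((ε f)⁻¹ * f) :=
  ⟨(ψ.comp ε)⁻¹ * ψ, fun f => by simp⟩

theorem ymapN {G : Type} [Group G] (θ : F →* G) {L : Subgroup F} {L' : Subgroup G}
    (h : ∀ f ∈ L, θ f ∈ L') {f : F} (hf : f ∈ L ⊔ commutator F) : θ f ∈ L' ⊔ commutator G := by
  have := mem_map_of_mem θ hf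
  rw [Subgroup.map_sup, commutator_def, map_commutator] at this
  refine sup_le_sup ?_ (commutator_mono le_top le_top) this
  rintro _ ⟨g, hg, rfl⟩
  exact h g hg

theorem yStep0 (hZ : yVar S (Multiplicative ℤ))
    (hN : ∀ (G : Type) [Group G], yVar S G → Group.FG G → Group.IsNilpotent G)
    (hF : yFree S x) (ε : F →* F) (hε : ∀ f, ε (ε f) = ε f) : yStepP 0 x ε := by
  classical
  intro X0 h0 T A hA hI
  obtain ⟨T1, hT1, hZ1⟩ := ysupp' hF.gen (A ∪ T.image fun i => ε (x i)) T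
  obtain ⟨U, hAU, hU, hUI, hUT⟩ := yMany hZ hF ε hε h0 A hA hI T1
  obtain ⟨χ, hχ0, hχ⟩ := yInd_dual hUI
  obtain ⟨T2, hT2, hZ2⟩ := ysupp' hF.gen (T1.image fun i => (ε (x i))⁻¹ * x i) T1
  obtain ⟨π2, hπ1, hπ2, hπ3⟩ := yCoord hF T2
  choose wd hwd hwd' using fun i : X => yWord U id (fun b => (χ b (ε (x i))).toAdd)
  simp only [Set.image_id] at hwd
  obtain ⟨π, hπ⟩ := hF.lift F hF.var (fun i => if i ∈ T1 then x i else if i ∈ X0 then 1 else
    wd i * ((ε (π2 ((ε (x i))⁻¹ * x i)))⁻¹ * π2 ((ε (x i))⁻¹ * x i)))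
  have htop : ∀ f, f ∈ closure (Set.range x) := fun f => by rw [hF.gen]; trivial
  have hπfix : ∀ f ∈ closure (x '' T1), π f = f := fun f hf => by
    refine MonoidHom.eqOn_closure (f := π) (g := MonoidHom.id F) ?_ hf
    rintro _ ⟨i, hi, rfl⟩
    rw [hπ, if_pos (Finset.mem_coe.mp hi)]
    rfl
  have hπ0 : ∀ f ∈ closure (x '' X0), π f ∈ closure (x '' X0) := fun f hf => by
    refine ymap π ?_ hf
    rintro _ ⟨i, hi, rfl⟩
    rw [hπ, if_pos hi]
    split_ifs
    · exact subset_closure ⟨i, hi, rfl⟩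
    · exact one_mem _
  have hε0 : ∀ f ∈ closure (x '' X0), ε f ∈ closure (x '' X0) := fun f hf => by
    refine ymap ε ?_ hf
    rintro _ ⟨i, hi, rfl⟩
    exact h0 i hi
  have hεU : ∀ f ∈ closure (U : Set F), ε f = f := fun f hf =>
    MonoidHom.eqOn_closure (f := ε) (g := MonoidHom.id F) hU hf
  -- the image of `π` is nilpotent
  have hbig : π.range ≤ closure ((U : Set F) ∪ (x '' T2 ∪ ε '' (x '' T2))) := by
    have e1 : closure (x '' T2) ≤ closure ((U : Set F) ∪ (x '' T2 ∪ ε '' (x '' T2))) :=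
      closure_mono (Set.subset_union_left.trans Set.subset_union_right)
    rintro _ ⟨f, rfl⟩
    refine ymap π ?_ (htop f)
    rintro _ ⟨i, rfl⟩
    rw [hπ]
    split_ifs with h1
    · exact e1 (subset_closure ⟨i, hT2 h1, rfl⟩)
    · exact one_mem _
    · refine mul_mem (closure_mono Set.subset_union_left (hwd i))
        (mul_mem (inv_mem (ymap ε (fun a ha => ?_) (hπ1 _))) (e1 (hπ1 _)))
      exact subset_closure (Or.inr (Or.inr ⟨a, ha, rfl⟩))
  have hnil : Group.IsNilpotent π.range := by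
    have := hN _ (yVar_sub hF.var (closure ((U : Set F) ∪ (x '' T2 ∪ ε '' (x '' T2)))))
      (Group.closure_finite_fg _)
    exact Group.nilpotent_of_mulEquiv (subgroupOfEquivOfLe hbig)
  -- `π` fixes `U` modulo the commutator subgroup
  obtain ⟨C, _, q, hq⟩ := yAb (closure (x '' X0))
  obtain ⟨K1, hK1⟩ := yKap ε q
  obtain ⟨K2, hK2⟩ := yKap ε (K1.comp π2)
  have hexp : ∀ f ∈ closure (U : Set F) ⊔ (closure (x '' X0) ⊔ commutator F),
      q f = ∏ d ∈ U, q d ^ (χ d f).toAdd := fun f hf =>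
    yDual U id χ (fun a _ d hd => hχ a d hd) q _ (fun f hf => (hq f).mpr hf)
      (fun a _ f hf => ykillN _ (hχ0 a) hf) (by rwa [Set.image_id])
  let Λ : F →* C := ∏ d ∈ U, (zpowersHom C (q d)).comp ((χ d).comp ε)
  have hΛ : ∀ f, Λ f = ∏ d ∈ U, q d ^ (χ d (ε f)).toAdd := fun f => by
    simp only [Λ, MonoidHom.finsetProd_apply, MonoidHom.comp_apply, zpowersHom_apply]
  have hqπ : q.comp π = Λ * K2 := hF.ext fun i => by
    rw [MonoidHom.comp_apply, MonoidHom.mul_apply, hπ, hΛ, hK2, MonoidHom.comp_apply, hK1]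
    split_ifs with h1 h2
    · rw [← hexp _ (hUT i h1), hπ2 _ (hZ2 _ (Finset.mem_image_of_mem _ h1))]
      simp [hε]
    · have e1 := hπ3 X0 _ (mul_mem (inv_mem (h0 i h2)) (subset_closure ⟨i, h2, rfl⟩))
      rw [← hexp _ (mem_sup_right (mem_sup_left (h0 i h2))), (hq _).mpr (mem_sup_left (h0 i h2)),
        (hq _).mpr (mem_sup_left (mul_mem (inv_mem (hε0 _ e1)) e1)), map_one, mul_one]
    · rw [map_mul, hwd' i C q]
      rfl
  have hb0 : ∀ b ∈ U, b⁻¹ * π b ∈ closure (x '' X0) ⊔ commutator F := fun b hb => by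
    have h1 : q (π b) = Λ b * K2 b := DFunLike.congr_fun hqπ b
    rw [hΛ, hK2, hU b hb, ← hexp b (mem_sup_left (subset_closure hb)), inv_mul_cancel, map_one,
      mul_one] at h1
    rw [← hq, map_mul, map_inv, h1, inv_mul_cancel]
  let ρ := π.rangeRestrict
  let φ : Monoid.End π.range := ρ.comp (ε.comp π.range.subtype)
  have hφ : ∀ g, φ g = ρ (ε g) := fun _ => rfl
  have hρ0 : ∀ f ∈ closure (x '' X0), ρ f ∈ (closure (x '' X0)).subgroupOf π.range :=
    fun f hf => mem_subgroupOf.mpr (hπ0 f hf)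
  obtain ⟨k, hk⟩ := yConv hnil φ ((closure (x '' X0)).subgroupOf π.range)
    (fun s hs => hρ0 _ (hε0 _ (mem_subgroupOf.mp hs))) (ρ '' U) (by
      rintro ⟨_, f, rfl⟩
      have h1 : ε (π f) ∈ closure (U : Set F) ⊔ (closure (x '' X0) ⊔ commutator F) := by
        refine ymap (ε.comp π) ?_ (htop f)
        rintro _ ⟨i, rfl⟩
        rw [MonoidHom.comp_apply, hπ]
        split_ifs with h1
        · exact hUT i h1
        · rw [map_one]
          exact one_mem _
        · rw [map_mul, map_mul, map_inv, hε, inv_mul_cancel, mul_one, hεU _ (hwd i)]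
          exact mem_sup_left (hwd i)
      rw [← sup_assoc] at h1
      refine ymapN ρ (fun g hg => ?_) h1
      have h2 := mem_map_of_mem ρ hg
      rw [Subgroup.map_sup, MonoidHom.map_closure] at h2
      have h3 : (closure (x '' X0)).map ρ ≤ (closure (x '' X0)).subgroupOf π.range := by
        rintro _ ⟨g, hg, rfl⟩
        exact hρ0 g hg
      exact (sup_le_sup_left h3 (closure (ρ '' U)) :) h2) (by
      rintro _ ⟨b, hb, rfl⟩
      have h1 := ymapN ρ hρ0 (ymapN ε hε0 (hb0 b hb))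
      rwa [map_mul, map_inv, hU b hb, map_mul, map_inv] at h1)
  have hbn : ∀ b ∈ U, ∀ n : ℕ,
      b⁻¹ * ((φ ^ n) (ρ b) : F) ∈ closure (x '' X0) ⊔ commutator F := fun b hb n => by
    induction n with
    | zero => exact hb0 b hb
    | succ n ih =>
      have h1 := mul_mem (hb0 b hb) (ymapN π hπ0 (ymapN ε hε0 ih))
      rw [map_mul, map_inv, hU b hb, map_mul, map_inv, mul_assoc, mul_inv_cancel_left] at h1
      rw [pow_succ']
      exact h1
  have hfix : ∀ z ∈ closure (x '' T1), ε z = z → ∀ n : ℕ, (φ ^ n) (ρ z) = ρ z :=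
    fun z hz e n => ypow_fix φ (by
      rw [hφ, MonoidHom.coe_rangeRestrict, hπfix z hz, e]) n
  obtain ⟨T', hT', hZ'⟩ := ysupp' hF.gen (U.image fun b => ((φ ^ (k + 1)) (ρ b) : F)) T1
  refine ⟨T', U.image fun b => ε ((φ ^ (k + 1)) (ρ b) : F), ⟨?_, ?_⟩, hT1.trans hT', ?_, ?_,
    fun i hi => ⟨?_, ?_⟩⟩
  · intro a ha
    obtain ⟨u, -, rfl⟩ := Finset.mem_image.mp ha
    exact hε _
  · refine yInd_zero.mpr fun D hD c => ?_
    obtain ⟨ω, hω0, hω⟩ := yInd_zero.mp hUI U subset_rfl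
      (fun b => c (ε ((φ ^ (k + 1)) (ρ b) : F)))
    refine ⟨ω, hω0, fun d hd => ?_⟩
    obtain ⟨b, hb, rfl⟩ := Finset.mem_image.mp (Finset.mem_coe.mp (hD hd))
    have h1 := ykillN ω hω0 (ymapN ε hε0 (hbn b hb (k + 1)))
    rw [map_mul, map_inv, hU b hb, map_mul, map_inv, inv_mul_eq_one] at h1
    rw [← h1, hω b hb]
  · intro a ha
    have h1 := hZ1 a (Finset.mem_union_left _ ha)
    refine Finset.mem_image.mpr ⟨a, hAU ha, ?_⟩
    rw [hfix a h1 (hA a ha), MonoidHom.coe_rangeRestrict, hπfix a h1, hA a ha]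
  · intro a ha
    obtain ⟨b, hb, rfl⟩ := Finset.mem_image.mp ha
    refine ymap ε ?_ (hZ' _ (Finset.mem_image_of_mem _ hb))
    rintro _ ⟨i, hi, rfl⟩
    exact subset_closure ⟨i, hi, rfl⟩
  · exact closure_mono (Set.image_mono (Finset.coe_subset.mpr hT'))
      (hZ1 _ (Finset.mem_union_right _ (Finset.mem_image_of_mem _ hi)))
  · have h1 := hZ1 _ (Finset.mem_union_right _ (Finset.mem_image_of_mem _ hi))
    have h2 := mem_map_of_mem (ε.comp π.range.subtype) (hk (ρ (ε (x i))))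
    rw [hfix _ h1 (hε _), Subgroup.map_sup, MonoidHom.map_closure, MonoidHom.comp_apply,
      coe_subtype, MonoidHom.coe_rangeRestrict, hπfix _ h1, hε] at h2
    refine sup_le (Subgroup.closure_mono ?_) ?_ h2
    · rintro _ ⟨_, ⟨_, ⟨b, hb, rfl⟩, rfl⟩, rfl⟩
      exact Or.inr (Finset.mem_coe.mpr (Finset.mem_image_of_mem _ hb))
    · rintro _ ⟨g, hg, rfl⟩
      refine ymap ε ?_ (mem_subgroupOf.mp hg)
      rintro _ ⟨j, hj, rfl⟩
      exact subset_closure (Or.inl ⟨j, hj, rfl⟩)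

theorem yInj0 (hN : ∀ (G : Type) [Group G], yVar S G → Group.FG G → Group.IsNilpotent G)
    (hF : yFree S x) {B : Set F} (hB : yInd 0 x ∅ B) {W : Type} [Group W] {w : B → W}
    (hW : yFree S w) (τ : W →* F) (hτ : ∀ b, τ (w b) = b) : Function.Injective τ := by
  classical
  refine (injective_iff_map_eq_one τ).mpr fun v hv => ?_
  obtain ⟨D, hD⟩ := ysupp hW.gen v
  have hvar := yVar_sub hW.var (closure (w '' D))
  have hnil := hN _ hvar (Group.closure_finite_fg _)
  have hI : yInd 0 x ∅ (D.image Subtype.val : Finset F) := fun E hE =>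
    hB E (hE.trans fun a ha => by
      obtain ⟨b, -, rfl⟩ := Finset.mem_image.mp (Finset.mem_coe.mp ha)
      exact b.2)
  obtain ⟨χ, -, hχ⟩ := yInd_dual hI
  let u : D → closure (w '' D) := fun d => ⟨w d, subset_closure ⟨d, d.2, rfl⟩⟩
  have hext : ∀ (K : Type) [Group K] (f g : closure (w '' D) →* K),
      (∀ d, f (u d) = g (u d)) → f = g := fun K _ f g h => by
    refine MonoidHom.eq_of_eqOn_dense closure_closure_coe_preimage ?_
    rintro ⟨_, h'⟩ ⟨d, hd, rfl⟩
    exact h ⟨d, hd⟩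
  choose wd _ hwd using fun i : X =>
    yWord (Finset.univ : Finset D) u (fun d => (χ (d : B) (x i)).toAdd)
  obtain ⟨σ, hσ⟩ := hF.lift _ hvar wd
  let κ : closure (w '' D) →* closure (w '' D) := σ.comp (τ.comp (closure (w '' D)).subtype)
  have hκ : ∀ (C : Type) [CommGroup C] (ψ : closure (w '' D) →* C), ψ.comp κ = ψ :=
    fun C _ ψ => hext C _ _ fun d => by
      have e : ψ.comp σ = ∏ a : D, (zpowersHom C (ψ (u a))).comp (χ (a : B)) := hF.ext fun i => by
        rw [MonoidHom.comp_apply, hσ, hwd, MonoidHom.finsetProd_apply]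
        rfl
      have h2 : (ψ.comp κ) (u d) = (ψ.comp σ) (d : B) := by
        rw [← hτ]
        rfl
      have hd := Finset.mem_image_of_mem Subtype.val d.2
      rw [h2, e, MonoidHom.finsetProd_apply, Finset.prod_eq_single d]
      · rw [MonoidHom.comp_apply, hχ _ _ hd, if_pos rfl, zpowersHom_apply, toAdd_ofAdd, zpow_one]
      · intro a _ ha
        rw [MonoidHom.comp_apply, hχ _ _ hd,
          if_neg fun e => ha (Subtype.ext (Subtype.ext e.symm)), map_one]
      · simp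
  have hsurj : κ.range = ⊤ := ySurj hnil fun g _ => by
    obtain ⟨C, _, q, hq⟩ := yAb κ.range
    rw [← hq, ← hκ C q]
    exact (hq _).mpr (mem_sup_left ⟨g, rfl⟩)
  choose r hr using fun d : D => MonoidHom.range_eq_top.mp hsurj (u d)
  obtain ⟨ρ0, hρ0⟩ := hW.lift _ hvar (fun b => if h : b ∈ D then r ⟨b, h⟩ else 1)
  let ρ : closure (w '' D) →* closure (w '' D) := ρ0.comp (closure (w '' D)).subtype
  have hκρ : κ.comp ρ = MonoidHom.id _ := hext _ _ _ fun d => by
    change κ (ρ0 (w d)) = u d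
    rw [hρ0, dif_pos d.2, hr]
  have hsurj' : ρ.range = ⊤ := ySurj hnil fun g _ => by
    obtain ⟨C, _, q, hq⟩ := yAb ρ.range
    have h1 : q (κ (ρ g)) = q (ρ g) := DFunLike.congr_fun (hκ C q) (ρ g)
    have h2 : κ (ρ g) = g := DFunLike.congr_fun hκρ g
    rw [← hq, ← h2, h1]
    exact (hq _).mpr (mem_sup_left ⟨g, rfl⟩)
  obtain ⟨v', hv'⟩ := MonoidHom.range_eq_top.mp hsurj' ⟨v, hD⟩
  have h1 : κ ⟨v, hD⟩ = 1 := by
    change σ (τ v) = 1
    rw [hv, map_one]
  have h2 : κ (ρ v') = v' := DFunLike.congr_fun hκρ v'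
  rw [hv', h1] at h2
  rw [← h2, map_one] at hv'
  exact (congrArg Subtype.val hv').symm

/-- In a locally nilpotent variety of exponent zero every projective group is free. -/
theorem yProj_free0 (hZ : yVar S (Multiplicative ℤ))
    (hN : ∀ (G : Type) [Group G], yVar S G → Group.FG G → Group.IsNilpotent G)
    (P : Type) [Group P] (hP : yVar S P) (hpr : yProj S P) :
    ∃ (B : Type) (b : B → P), yFree S b :=
  yProj_free_aux (p := 0) (fun _ _ _ _ hF ε hε => yStep0 hZ hN hF ε hε)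
    (fun _ _ _ _ hF _ hB _ _ _ hW τ hτ => yInj0 hN hF hB hW τ hτ) P hP hpr

end Pool.Agent.Lib.MP_b442e4_al.LF
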