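import Pool.Agent.Lib.MP_b442e4_al.LF.YAll
import Pool.Agent.Lib.MP_b442e4_al.LF.YStep

/-!
In a locally nilpotent variety every projective group is a free product, in the variety, of
cyclic projective groups.
-/

set_option autoImplicit false

namespace Pool.Agent.Lib.MP_b442e4_al.LF

theorem yVar_of_injective {S : Set (FreeGroup ℕ)} {G H : Type} [Group G] [Group H]
    (hG : yVar S G) (θ : H →* G) (hθ : Function.Injective θ) : yVar S H := by
  intro w hw f
  apply hθ
  rw [ylift_map, map_one]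
  exact hG w hw _

theorem yCB_nil {S : Set (FreeGroup ℕ)}
    (hN : ∀ (G : Type) [Group G], yVar S G → Group.FG G → Group.IsNilpotent G)
    (P : Type) [Group P] (hP : yVar S P) (hpr : yProj S P) : yCB S P := by
  obtain ⟨F, _, x, hF⟩ := yFree_exists S Unit
  by_cases h : IsOfFinOrder (x ())
  · refine yCB_of (fun G _ hG hfg => ?_) (fun G _ hG _ => hN G hG inferInstance) P hP hpr
    have := hN G hG hfg
    refine yFinite fun g => ?_
    obtain ⟨θ, hθ⟩ := hF.lift G hG (fun _ => g)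
    rw [← hθ ()]
    exact θ.isOfFinOrder h
  · obtain ⟨B, b, hb⟩ := yProj_free0 (yVar_of_injective hF.var (zpowersHom F (x ())) fun m n e =>
      Multiplicative.toAdd.injective (injective_zpow_iff_not_isOfFinOrder.mpr h e)) hN P hP hpr
    exact ⟨B, b, hb.gen, fun K _ hK g _ => hb.lift K hK g⟩

/-- The positive half for all locally nilpotent varieties. -/
theorem yes_side2 (S : Set (FreeGroup ℕ))
    (hnil : ∀ (G : Type) [Group G], (∀ w ∈ S, ∀ f : ℕ → G, FreeGroup.lift f w = 1) →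
      Group.FG G → Group.IsNilpotent G)
    (G : Type) [Group G] (hG : ∀ w ∈ S, ∀ f : ℕ → G, FreeGroup.lift f w = 1)
    (hpr : ∀ (A B : Type) [Group A] [Group B],
      (∀ w ∈ S, ∀ f : ℕ → A, FreeGroup.lift f w = 1) →
      (∀ w ∈ S, ∀ f : ℕ → B, FreeGroup.lift f w = 1) →
      ∀ (π : A →* B), Function.Surjective π →
        ∀ (φ : G →* B), ∃ ψ : G →* A, π.comp ψ = φ) :
    ∃ (I : Type) (H : I → Type) (_ : ∀ i, Group (H i)) (ι : ∀ i, H i →* G),
      (∀ i, IsCyclic (H i) ∧
        (∀ w ∈ S, ∀ f : ℕ → H i, FreeGroup.lift f w = 1) ∧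
        (∃ s : Set (H i), s.Countable ∧ Subgroup.closure s = ⊤) ∧
        (∀ (A B : Type) [Group A] [Group B],
          (∀ w ∈ S, ∀ f : ℕ → A, FreeGroup.lift f w = 1) →
          (∀ w ∈ S, ∀ f : ℕ → B, FreeGroup.lift f w = 1) →
          ∀ (π : A →* B), Function.Surjective π →
            ∀ (φ : H i →* B), ∃ ψ : H i →* A, π.comp ψ = φ)) ∧
      (∀ (K : Type) [Group K],
        (∀ w ∈ S, ∀ f : ℕ → K, FreeGroup.lift f w = 1) →
        ∀ g : ∀ i, H i →* K, ∃! θ : G →* K, ∀ i, θ.comp (ι i) = g i) :=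
  yes_of_CB S G hG hpr (yCB_nil hnil G hG hpr)

end Pool.Agent.Lib.MP_b442e4_al.LF
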