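import Pool.Agent.Lib.MP_b442e4_al.LF.YNil

/-!
Locally nilpotent varieties of exponent zero: characters to the integers.
-/

set_option autoImplicit false

namespace Pool.Agent.Lib.MP_b442e4_al.LF

open Subgroup Multiplicative

variable {X F : Type} [Group F] {x : X → F} {S : Set (FreeGroup ℕ)}

theorem yInd_zero {X0 : Set X} {B : Set F} : yInd 0 x X0 B ↔
    ∀ D : Finset F, ↑D ⊆ B → ∀ c : F → Multiplicative ℤ,
      ∃ χ : F →* Multiplicative ℤ, (∀ i ∈ X0, χ (x i) = 1) ∧ ∀ d ∈ D, χ d = c d := Iff.rfl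

theorem yInd_dual [DecidableEq F] {X0 : Set X} {A : Finset F} (h : yInd 0 x X0 A) :
    ∃ χ : F → F →* Multiplicative ℤ, (∀ a, ∀ i ∈ X0, χ a (x i) = 1) ∧
      ∀ a, ∀ d ∈ A, χ a d = if d = a then ofAdd 1 else 1 := by
  choose χ h1 h2 using fun a : F =>
    yInd_zero.mp h A subset_rfl (fun d => if d = a then ofAdd 1 else 1)
  exact ⟨χ, h1, h2⟩

theorem ykillN {C : Type} [CommGroup C] (ψ : F →* C) {X0 : Set X} (h : ∀ i ∈ X0, ψ (x i) = 1)
    {f : F} (hf : f ∈ closure (x '' X0) ⊔ commutator F) : ψ f = 1 := by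
  refine (sup_le ((closure_le ψ.ker).mpr ?_) (Abelianization.commutator_subset_ker ψ)) hf
  rintro _ ⟨i, hi, rfl⟩
  exact h i hi

/-- Expansion of a character along a family with dual characters. -/
theorem yDual {ι C : Type} [DecidableEq ι] [CommGroup C] (D : Finset ι) (u : ι → F)
    (χ : ι → F →* Multiplicative ℤ)
    (hχ : ∀ a ∈ D, ∀ d ∈ D, χ a (u d) = if d = a then ofAdd 1 else 1) (ψ : F →* C)
    (N : Subgroup F) (h1 : ∀ f ∈ N, ψ f = 1) (h2 : ∀ a ∈ D, ∀ f ∈ N, χ a f = 1) {f : F}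
    (hf : f ∈ closure (u '' D) ⊔ N) : ψ f = ∏ d ∈ D, ψ (u d) ^ (χ d f).toAdd := by
  let Λ : F →* C := ∏ d ∈ D, (zpowersHom C (ψ (u d))).comp (χ d)
  have hΛ : ∀ f, Λ f = ∏ d ∈ D, ψ (u d) ^ (χ d f).toAdd := fun f => by
    simp only [Λ, MonoidHom.finsetProd_apply, MonoidHom.comp_apply, zpowersHom_apply]
  rw [← hΛ]
  refine (sup_le ((closure_le (ψ.eqLocus Λ)).mpr ?_) fun g hg => ?_) hf
  · rintro _ ⟨d, hd, rfl⟩
    change ψ (u d) = Λ (u d)
    rw [hΛ, Finset.prod_eq_single d]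
    · rw [hχ d hd d hd, if_pos rfl, toAdd_ofAdd, zpow_one]
    · intro a ha hne
      rw [hχ a ha d hd, if_neg hne.symm, toAdd_one, zpow_zero]
    · exact fun h => (h hd).elim
  · change ψ g = Λ g
    rw [hΛ, h1 g hg]
    exact (Finset.prod_eq_one fun a ha => by rw [h2 a ha g hg, toAdd_one, zpow_zero]).symm

theorem yCancel {a b : Multiplicative ℤ} {g : ℤ} (hg : g ≠ 0) (h : a ^ g = b ^ g) : a = b := by
  have := congrArg toAdd h
  rw [toAdd_zpow, toAdd_zpow, smul_eq_mul, smul_eq_mul] at this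
  exact toAdd.injective (mul_left_cancel₀ hg this)

/-- One more element of the retract enters the span, modulo the commutator subgroup. -/
theorem yOne (hZ : yVar S (Multiplicative ℤ)) (hF : yFree S x) (ε : F →* F)
    (hε : ∀ f, ε (ε f) = ε f) {X0 : Set X} (h0 : ∀ i ∈ X0, ε (x i) ∈ closure (x '' X0))
    (A : Finset F) (hA : ∀ a ∈ A, ε a = a) (hI : yInd 0 x X0 A) {z : F} (hz : ε z = z) :
    ∃ A' : Finset F, A ⊆ A' ∧ (∀ a ∈ A', ε a = a) ∧ yInd 0 x X0 A' ∧
      z ∈ closure (A' : Set F) ⊔ (closure (x '' X0) ⊔ commutator F) := by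
  classical
  obtain ⟨χ, hχ0, hχ⟩ := yInd_dual hI
  choose ξ hξ using fun i : X =>
    hF.lift _ hZ (fun j => if j = i then (ofAdd 1 : Multiplicative ℤ) else 1)
  obtain ⟨C, _, q, hq⟩ := yAb (closure (x '' X0))
  have hq0 : ∀ i ∈ X0, q (x i) = 1 := fun i hi =>
    (hq _).mpr (mem_sup_left (subset_closure ⟨i, hi, rfl⟩))
  obtain ⟨w, hw, hw'⟩ := yWord A id (fun a => (χ a z).toAdd)
  rw [Set.image_id] at hw
  have hεw : ε w = w := MonoidHom.eqOn_closure (f := ε) (g := MonoidHom.id F) hA hw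
  have hz' : ε (w⁻¹ * z) = w⁻¹ * z := by rw [map_mul, map_inv, hεw, hz]
  have hχz : ∀ a ∈ A, χ a (w⁻¹ * z) = 1 := fun a ha => by
    rw [map_mul, map_inv, hw' _ (χ a), Finset.prod_eq_single a]
    · rw [id, hχ a a ha, if_pos rfl, ← ofAdd_zsmul, smul_eq_mul, mul_one, ofAdd_toAdd,
        inv_mul_cancel]
    · intro d hd hne
      rw [id, hχ a d hd, if_neg hne, one_zpow]
    · exact fun h => (h ha).elim
  obtain ⟨T, hT⟩ := ysupp hF.gen (w⁻¹ * z)
  let s := T.filter (· ∉ X0)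
  have hexp : ∀ (C : Type) [CommGroup C] (ψ : F →* C), (∀ i ∈ X0, ψ (x i) = 1) →
      ψ (w⁻¹ * z) = ∏ i ∈ s, ψ (x i) ^ (ξ i (w⁻¹ * z)).toAdd := fun C _ ψ hψ => by
    refine yDual s x ξ (fun a _ d _ => hξ a d) ψ (closure (x '' X0))
      (fun f hf => ykillN ψ hψ (mem_sup_left hf))
      (fun a ha f hf => ykillN _ (fun i hi => ?_) (mem_sup_left hf)) ?_
    · rw [hξ, if_neg]
      rintro rfl
      exact (Finset.mem_filter.mp ha).2 hi
    · refine (closure_le _).mpr ?_ hT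
      rintro _ ⟨i, hi, rfl⟩
      by_cases h : i ∈ X0
      · exact mem_sup_right (subset_closure ⟨i, h, rfl⟩)
      · exact mem_sup_left (subset_closure ⟨i, Finset.mem_filter.mpr ⟨hi, h⟩, rfl⟩)
  by_cases hall : ∀ i ∈ s, (ξ i (w⁻¹ * z)).toAdd = 0
  · refine ⟨A, subset_rfl, hA, hI, ?_⟩
    have h1 : q (w⁻¹ * z) = 1 := by
      rw [hexp C q hq0]
      exact Finset.prod_eq_one fun i hi => by rw [hall i hi, zpow_zero]
    have := mul_mem (mem_sup_left hw : _ ∈ closure (A : Set F) ⊔ _) (mem_sup_right ((hq _).mp h1))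
    rwa [mul_inv_cancel_left] at this
  have hg : s.gcd (fun i => (ξ i (w⁻¹ * z)).toAdd) ≠ 0 := fun h =>
    hall (Finset.gcd_eq_zero_iff.mp h)
  have hne : s.Nonempty := by
    rw [Finset.nonempty_iff_ne_empty]
    intro h
    exact hall (by simp [h])
  obtain ⟨c, hc, hc1⟩ := Finset.extract_gcd (fun i => (ξ i (w⁻¹ * z)).toAdd) hne
  obtain ⟨r, hr⟩ := Finset.gcd_eq_sum_mul s c
  generalize s.gcd (fun i => (ξ i (w⁻¹ * z)).toAdd) = g at hg hc
  obtain ⟨y, -, hy⟩ := yWord s x c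
  have hyz : ∀ (C : Type) [CommGroup C] (ψ : F →* C), (∀ i ∈ X0, ψ (x i) = 1) →
      ψ (w⁻¹ * z) = ψ y ^ g := fun C _ ψ hψ => by
    rw [hexp C ψ hψ, hy, ← Finset.prod_zpow]
    exact Finset.prod_congr rfl fun i hi => by rw [hc i hi, mul_comm, zpow_mul]
  have hbz : ∀ (C : Type) [CommGroup C] (ψ : F →* C), (∀ i ∈ X0, ψ (x i) = 1) →
      ψ (w⁻¹ * z) = ψ (ε y) ^ g := fun C _ ψ hψ => by
    rw [← hz']
    exact hyz C (ψ.comp ε) fun i hi => ykillN ψ hψ (mem_sup_left (h0 i hi))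
  have hχb : ∀ a ∈ A, χ a (ε y) = 1 := fun a ha =>
    yCancel hg (by rw [← hbz _ _ (hχ0 a), hχz a ha, one_zpow])
  let ω : F →* Multiplicative ℤ := ∏ i ∈ s, ξ i ^ r i
  have hω : ∀ j, ω (x j) = if j ∈ s then ofAdd (r j) else 1 := fun j => by
    simp only [ω, MonoidHom.finsetProd_apply, MonoidHom.zpow_apply, hξ]
    split_ifs with hj
    · rw [Finset.prod_eq_single j]
      · rw [if_pos rfl, ← ofAdd_zsmul, smul_eq_mul, mul_one]
      · intro i _ hne
        rw [if_neg hne.symm, one_zpow]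
      · exact fun h => (h hj).elim
    · refine Finset.prod_eq_one fun i hi => ?_
      rw [if_neg (fun e : j = i => hj (e ▸ hi)), one_zpow]
  have hω0 : ∀ i ∈ X0, ω (x i) = 1 := fun i hi => by
    rw [hω, if_neg fun h : i ∈ s => (Finset.mem_filter.mp h).2 hi]
  have hωb : ω (ε y) = ofAdd 1 := by
    have h1 : ω (ε y) = ω y := yCancel hg (by rw [← hbz _ _ hω0, ← hyz _ _ hω0])
    rw [h1, hy, ← hc1, hr, ofAdd_sum]
    refine Finset.prod_congr rfl fun i hi => ?_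
    rw [hω, if_pos hi, ← ofAdd_zsmul, smul_eq_mul]
  refine ⟨insert (ε y) A, Finset.subset_insert _ _, ?_, yInd_zero.mpr fun D hD c' => ?_, ?_⟩
  · intro a ha
    rcases Finset.mem_insert.mp ha with rfl | ha
    · exact hε y
    · exact hA a ha
  · refine ⟨ω ^ (c' (ε y)).toAdd *
      ∏ a ∈ A, χ a ^ ((c' a).toAdd - (c' (ε y)).toAdd * (ω a).toAdd), fun i hi => ?_,
      fun d hd => ?_⟩
    · simp only [MonoidHom.mul_apply, MonoidHom.finsetProd_apply, MonoidHom.zpow_apply, hω0 i hi,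
        hχ0 _ i hi, one_zpow, Finset.prod_const_one, mul_one]
    · simp only [MonoidHom.mul_apply, MonoidHom.finsetProd_apply, MonoidHom.zpow_apply]
      rcases Finset.mem_insert.mp (Finset.mem_coe.mp (hD hd)) with rfl | ha
      · rw [hωb, Finset.prod_eq_one fun a ha => by rw [hχb a ha, one_zpow], mul_one,
          ← ofAdd_zsmul, smul_eq_mul, mul_one, ofAdd_toAdd]
      · rw [Finset.prod_eq_single d]
        · rw [hχ d d ha, if_pos rfl]
          apply toAdd.injective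
          simp
        · intro a _ hne
          rw [hχ a d ha, if_neg hne.symm, one_zpow]
        · exact fun h => (h ha).elim
  · have h1 : q ((ε y ^ g)⁻¹ * (w⁻¹ * z)) = 1 := by
      rw [map_mul, map_inv, map_zpow, hbz C q hq0, inv_mul_cancel]
    have h2 : w * ε y ^ g ∈ closure ((insert (ε y) A : Finset F) : Set F) :=
      mul_mem (closure_mono (by simp) hw) (Subgroup.zpow_mem _ (subset_closure (by simp)) _)
    have := mul_mem (mem_sup_left h2 : _ ∈ _ ⊔ _) (mem_sup_right ((hq _).mp h1))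
    rwa [mul_assoc, mul_inv_cancel_left, mul_inv_cancel_left] at this

theorem yMany (hZ : yVar S (Multiplicative ℤ)) (hF : yFree S x) (ε : F →* F)
    (hε : ∀ f, ε (ε f) = ε f) {X0 : Set X} (h0 : ∀ i ∈ X0, ε (x i) ∈ closure (x '' X0))
    (A : Finset F) (hA : ∀ a ∈ A, ε a = a) (hI : yInd 0 x X0 A) (T : Finset X) :
    ∃ U : Finset F, A ⊆ U ∧ (∀ a ∈ U, ε a = a) ∧ yInd 0 x X0 U ∧
      ∀ t ∈ T, ε (x t) ∈ closure (U : Set F) ⊔ (closure (x '' X0) ⊔ commutator F) := by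
  classical
  induction T using Finset.induction with
  | empty => exact ⟨A, subset_rfl, hA, hI, by simp⟩
  | insert t T _ ih =>
    obtain ⟨U, h1, h2, h3, h4⟩ := ih
    obtain ⟨U', h5, h6, h7, h8⟩ := yOne hZ hF ε hε h0 U h2 h3 (hε (x t))
    refine ⟨U', h1.trans h5, h6, h7, fun i hi => ?_⟩
    rcases Finset.mem_insert.mp hi with rfl | hi
    · exact h8
    · exact sup_le_sup_right (closure_mono (Finset.coe_subset.mpr h5)) _ (h4 i hi)

end Pool.Agent.Lib.MP_b442e4_al.LF
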