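import Pool.Agent.Lib.MP_b442e4_al.LF.YFree

/-!
In a locally finite variety of `p`-groups every projective group is free.
-/

set_option autoImplicit false

namespace Pool.Agent.Lib.MP_b442e4_al.LF

open Subgroup

variable {p : ℕ} [hp : Fact p.Prime] {X F : Type} [Group F] {x : X → F} {S : Set (FreeGroup ℕ)}

theorem ysupp' (h : closure (Set.range x) = ⊤) (Z : Finset F) (T : Finset X) :
    ∃ T' : Finset X, T ⊆ T' ∧ ∀ z ∈ Z, z ∈ closure (x '' T') := by
  classical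
  choose t ht using ysupp h
  refine ⟨T ∪ Z.biUnion t, Finset.subset_union_left, fun z hz => ?_⟩
  refine closure_mono (Set.image_mono fun i hi => ?_) (ht z)
  exact Finset.mem_coe.mpr (Finset.mem_union_right _ (Finset.mem_biUnion.mpr ⟨z, hz, hi⟩))

theorem ypow_mem (φ : Monoid.End F) (K : Subgroup F) (h : ∀ f ∈ K, φ f ∈ K) (k : ℕ) :
    ∀ f ∈ K, (φ ^ k) f ∈ K := by
  induction k with
  | zero => exact fun f hf => hf
  | succ k ih =>
    intro f hf
    rw [pow_succ']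
    exact h _ (ih f hf)

theorem ypow_fix (φ : Monoid.End F) {f : F} (h : φ f = f) (k : ℕ) : (φ ^ k) f = f := by
  induction k with
  | zero => rfl
  | succ k ih =>
    rw [pow_succ']
    change φ ((φ ^ k) f) = f
    rw [ih, h]

/-- One finite step. -/
theorem yStep (hS : ∀ (G : Type) [Group G], yVar S G → Group.FG G → Finite G ∧ IsPGroup p G)
    (hF : yFree S x) (ε : F →* F) (hε : ∀ f, ε (ε f) = ε f) {X0 : Set X}
    (h0 : ∀ i ∈ X0, ε (x i) ∈ closure (x '' X0)) (T : Finset X) (A : Finset F)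
    (hA : ∀ a ∈ A, ε a = a) (hI : yInd p x X0 A) :
    ∃ (T' : Finset X) (A' : Finset F), ((∀ a ∈ A', ε a = a) ∧ yInd p x X0 A') ∧
      T ⊆ T' ∧ A ⊆ A' ∧ (∀ a ∈ A', a ∈ closure ((fun i => ε (x i)) '' T')) ∧
      ∀ i ∈ T, ε (x i) ∈ closure (x '' T') ∧
        ε (x i) ∈ closure ((fun i => ε (x i)) '' X0 ∪ A') := by
  classical
  obtain ⟨T', hT, hZ⟩ := ysupp' hF.gen (A ∪ T.image fun i => ε (x i)) T
  obtain ⟨π, hπ⟩ := hF.lift F hF.var (fun i => if i ∈ T' then x i else 1)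
  have hπG : ∀ f, π f ∈ closure (x '' T') := fun f => by
    refine ymap π (s := Set.range x) ?_ (by rw [hF.gen]; trivial)
    rintro _ ⟨i, rfl⟩
    rw [hπ]
    split_ifs with hi
    · exact subset_closure ⟨i, hi, rfl⟩
    · exact one_mem _
  have hπfix : ∀ f ∈ closure (x '' T'), π f = f := fun f hf => by
    refine MonoidHom.eqOn_closure (f := π) (g := MonoidHom.id F) ?_ hf
    rintro _ ⟨i, hi, rfl⟩
    rw [hπ, if_pos (Finset.mem_coe.mp hi)]
    rfl
  have hπ0 : ∀ f ∈ closure (x '' X0), π f ∈ closure (x '' X0) := fun f hf => by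
    refine ymap π ?_ hf
    rintro _ ⟨i, hi, rfl⟩
    rw [hπ]
    split_ifs
    · exact subset_closure ⟨i, hi, rfl⟩
    · exact one_mem _
  have hε0 : ∀ f ∈ closure (x '' X0), ε f ∈ closure (x '' X0) := fun f hf => by
    refine ymap ε ?_ hf
    rintro _ ⟨i, hi, rfl⟩
    exact h0 i hi
  have hfg : Group.FG (closure (x '' T')) := Group.closure_finite_fg _
  obtain ⟨hfin, hP⟩ := hS _ (yVar_sub hF.var (closure (x '' T'))) hfg
  let φ : Monoid.End F := π.comp ε
  have hφ : ∀ f, φ f = π (ε f) := fun _ => rfl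
  obtain ⟨k, hk⟩ := yIdem φ (closure (x '' T')) (fun f => hπG _)
  let η : F →* F := (φ ^ (k + 1) : Monoid.End F)
  have hη : ∀ f, η (η f) = η f := fun f => DFunLike.congr_fun hk f
  have hη1 : ∀ f, η f = (φ ^ k) (π (ε f)) := fun f => by
    change (φ ^ (k + 1)) f = _
    rw [pow_succ]
    rfl
  have hηG : η.range ≤ closure (x '' T') := by
    rintro _ ⟨f, rfl⟩
    rw [hη1]
    exact ypow_mem φ _ (fun f _ => hπG _) k _ (hπG _)
  have hfin' : Finite η.range := Finite.of_injective _ (inclusion_injective hηG)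
  have hφ0 : ∀ f ∈ closure (x '' X0), φ f ∈ closure (x '' X0) := fun f hf => hπ0 _ (hε0 f hf)
  have hfix : ∀ z ∈ closure (x '' T'), ε z = z → η z = z := fun z hz e =>
    ypow_fix φ (by rw [hφ, e, hπfix z hz]) (k + 1)
  obtain ⟨U, hAU, hU, hUI, hgen⟩ := yExt (X0 := X0) η hη (hP.to_le hηG)
    (fun i hi => ypow_mem φ _ hφ0 (k + 1) _ (subset_closure ⟨i, hi, rfl⟩)) A
    (fun a ha => hfix a (hZ a (Finset.mem_union_left _ ha)) (hA a ha)) hI
  refine ⟨T', U.image ε, ⟨?_, ?_⟩, hT, ?_, ?_, fun i hi => ⟨?_, ?_⟩⟩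
  · intro a ha
    obtain ⟨u, -, rfl⟩ := Finset.mem_image.mp ha
    exact hε u
  · intro D hD c
    obtain ⟨χ, hχ0, hχ⟩ := hUI U subset_rfl (fun f => c (ε f))
    refine ⟨χ.comp (MonoidHom.comp (φ ^ k : Monoid.End F) π), fun i hi => ?_, fun d hd => ?_⟩
    · exact ykill χ (by rintro _ ⟨j, hj, rfl⟩; exact hχ0 j hj)
        (ypow_mem φ _ hφ0 k _ (hπ0 _ (subset_closure ⟨i, hi, rfl⟩)))
    · obtain ⟨u, hu, rfl⟩ := Finset.mem_image.mp (Finset.mem_coe.mp (hD hd))
      change χ ((φ ^ k) (π (ε u))) = _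
      rw [← hη1, hU u hu, hχ u hu]
  · intro a ha
    exact Finset.mem_image.mpr ⟨a, hAU ha, hA a ha⟩
  · intro a ha
    obtain ⟨u, hu, rfl⟩ := Finset.mem_image.mp ha
    refine ymap ε ?_ (hηG ⟨u, hU u hu⟩)
    rintro _ ⟨i, hi, rfl⟩
    exact subset_closure ⟨i, hi, rfl⟩
  · exact hZ _ (Finset.mem_union_right _ (Finset.mem_image_of_mem _ hi))
  · have h1 := hgen (ε (x i))
    rw [hfix _ (hZ _ (Finset.mem_union_right _ (Finset.mem_image_of_mem _ hi))) (hε _)] at h1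
    rw [← hε]
    refine ymap ε ?_ h1
    rintro _ (⟨j, hj, rfl⟩ | hu)
    · exact subset_closure (Or.inl ⟨j, hj, rfl⟩)
    · exact subset_closure (Or.inr (Finset.mem_coe.mpr (Finset.mem_image_of_mem _ hu)))

/-- The finite step as a property of an idempotent endomorphism. -/
def yStepP (p : ℕ) (x : X → F) (ε : F →* F) : Prop :=
  ∀ X0 : Set X, (∀ i ∈ X0, ε (x i) ∈ closure (x '' X0)) → ∀ (T : Finset X) (A : Finset F),
    (∀ a ∈ A, ε a = a) → yInd p x X0 A →
    ∃ (T' : Finset X) (A' : Finset F), ((∀ a ∈ A', ε a = a) ∧ yInd p x X0 A') ∧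
      T ⊆ T' ∧ A ⊆ A' ∧ (∀ a ∈ A', a ∈ closure ((fun i => ε (x i)) '' T')) ∧
      ∀ i ∈ T, ε (x i) ∈ closure (x '' T') ∧
        ε (x i) ∈ closure ((fun i => ε (x i)) '' X0 ∪ A')

/-- The invariant of the transfinite construction. -/
def yGood (p : ℕ) (x : X → F) (ε : F →* F) (s : Set X × Set F) : Prop :=
  (∀ i ∈ s.1, ε (x i) ∈ closure (x '' s.1)) ∧ yInd p x ∅ s.2 ∧
    (∀ b ∈ s.2, b ∈ closure ((fun i => ε (x i)) '' s.1)) ∧ ∀ i ∈ s.1, ε (x i) ∈ closure s.2

omit hp in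
theorem yInd_directed {ι : Type} [Nonempty ι] {X0 : Set X} (B : ι → Set F)
    (hd : Directed (· ⊆ ·) B) (h : ∀ n, yInd p x X0 (B n)) : yInd p x X0 (⋃ n, B n) := by
  intro D hD c
  obtain ⟨n, hn⟩ := hd.exists_mem_subset_of_finset_subset_biUnion hD
  exact h n D hn c

omit hp in
/-- One countable step. -/
theorem yGrow (ε : F →* F) (hst : yStepP p x ε) (s : Set X × Set F)
    (hs : yGood p x ε s) (i0 : X) : ∃ t, yGood p x ε t ∧ s ≤ t ∧ i0 ∈ t.1 := by
  obtain ⟨h0, hB, hB1, hB2⟩ := hs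
  let σ := {q : Finset X × Finset F // (∀ a ∈ q.2, ε a = a) ∧ yInd p x s.1 q.2}
  have hstep : ∀ q : σ, ∃ q' : σ, q.1.1 ⊆ q'.1.1 ∧ q.1.2 ⊆ q'.1.2 ∧
      (∀ a ∈ q'.1.2, a ∈ closure ((fun i => ε (x i)) '' q'.1.1)) ∧
      ∀ i ∈ q.1.1, ε (x i) ∈ closure (x '' q'.1.1) ∧
        ε (x i) ∈ closure ((fun i => ε (x i)) '' s.1 ∪ q'.1.2) := fun q => by
    obtain ⟨T', A', h1, h2⟩ := hst _ h0 q.1.1 q.1.2 q.2.1 q.2.2
    exact ⟨⟨(T', A'), h1⟩, h2⟩
  choose f hf using hstep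
  let q0 : σ := ⟨({i0}, ∅), by simp, fun D hD c =>
    ⟨1, fun _ _ => rfl, fun d hd => by simpa using hD hd⟩⟩
  let q : ℕ → σ := fun n => f^[n] q0
  have hq : ∀ n, q (n + 1) = f (q n) := fun n => Function.iterate_succ_apply' f n q0
  have hmono : Monotone fun n => ((q n).1.2 : Set F) := monotone_nat_of_le_succ fun n => by
    rw [hq]
    exact Finset.coe_subset.mpr (hf (q n)).2.1
  have hT : ∀ n, ((q n).1.1 : Set X) ⊆ s.1 ∪ ⋃ n, ((q n).1.1 : Set X) := fun n =>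
    (Set.subset_iUnion (fun n => ((q n).1.1 : Set X)) n).trans Set.subset_union_right
  have hA : ∀ n, ((q n).1.2 : Set F) ⊆ s.2 ∪ ⋃ n, ((q n).1.2 : Set F) := fun n =>
    (Set.subset_iUnion (fun n => ((q n).1.2 : Set F)) n).trans Set.subset_union_right
  refine ⟨(s.1 ∪ ⋃ n, ((q n).1.1 : Set X), s.2 ∪ ⋃ n, ((q n).1.2 : Set F)), ⟨?_, ?_, ?_, ?_⟩,
    ⟨Set.subset_union_left, Set.subset_union_left⟩, hT 0 (by simp [q, q0])⟩
  · rintro i (hi | hi)
    · exact closure_mono (Set.image_mono Set.subset_union_left) (h0 i hi)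
    · obtain ⟨n, hn⟩ := Set.mem_iUnion.mp hi
      have := ((hf (q n)).2.2.2 i hn).1
      rw [← hq] at this
      exact closure_mono (Set.image_mono (hT _)) this
  · refine yInd_union hB (fun b hb => ?_)
      (yInd_directed _ hmono.directed_le fun n => (q n).2.2)
    refine (closure_le _).mpr ?_ (hB1 b hb)
    rintro _ ⟨i, hi, rfl⟩
    exact h0 i hi
  · rintro b (hb | hb)
    · exact closure_mono (Set.image_mono Set.subset_union_left) (hB1 b hb)
    · obtain ⟨n, hn⟩ := Set.mem_iUnion.mp hb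
      have := (hf (q n)).2.2.1 b ((hf (q n)).2.1 hn)
      rw [← hq] at this
      exact closure_mono (Set.image_mono (hT _)) this
  · rintro i (hi | hi)
    · exact closure_mono Set.subset_union_left (hB2 i hi)
    · obtain ⟨n, hn⟩ := Set.mem_iUnion.mp hi
      have := ((hf (q n)).2.2.2 i hn).2
      rw [← hq] at this
      refine (closure_le _).mpr ?_ this
      rintro _ (⟨j, hj, rfl⟩ | ha)
      · exact closure_mono Set.subset_union_left (hB2 j hj)
      · exact subset_closure (hA _ ha)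

omit hp in
theorem yBasis (hF : yFree S x) (ε : F →* F) (hst : yStepP p x ε) :
    ∃ B : Set F, yInd p x ∅ B ∧ closure B = ε.range := by
  obtain ⟨m, hm⟩ := zorn_le₀ {s | yGood p x ε s} (fun c hc hch => by
    rcases c.eq_empty_or_nonempty with rfl | hne
    · refine ⟨(∅, ∅), ⟨by simp, fun D hD c => ?_, by simp, by simp⟩, by simp⟩
      exact ⟨1, fun _ _ => rfl, fun d hd => by simpa using hD hd⟩
    have := hne.to_subtype
    have h1 : ∀ s : c, s.1.1 ⊆ ⋃ s : c, s.1.1 := Set.subset_iUnion fun s : c => s.1.1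
    have h2 : ∀ s : c, s.1.2 ⊆ ⋃ s : c, s.1.2 := Set.subset_iUnion fun s : c => s.1.2
    refine ⟨(⋃ s : c, s.1.1, ⋃ s : c, s.1.2), ⟨?_, ?_, ?_, ?_⟩,
      fun s hs => ⟨h1 ⟨s, hs⟩, h2 ⟨s, hs⟩⟩⟩
    · intro i hi
      obtain ⟨s, hs⟩ := Set.mem_iUnion.mp hi
      exact closure_mono (Set.image_mono (h1 s)) ((hc s.2).1 i hs)
    · refine yInd_directed _ (fun s t => ?_) fun s : c => (hc s.2).2.1
      rcases hch.total s.2 t.2 with h | h
      · exact ⟨t, h.2, subset_rfl⟩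
      · exact ⟨s, subset_rfl, h.2⟩
    · intro b hb
      obtain ⟨s, hs⟩ := Set.mem_iUnion.mp hb
      exact closure_mono (Set.image_mono (h1 s)) ((hc s.2).2.2.1 b hs)
    · intro i hi
      obtain ⟨s, hs⟩ := Set.mem_iUnion.mp hi
      exact closure_mono (h2 s) ((hc s.2).2.2.2 i hs))
  have hg : yGood p x ε m := hm.prop
  refine ⟨m.2, hg.2.1, le_antisymm ((closure_le _).mpr fun b hb => ?_) ?_⟩
  · refine (closure_le _).mpr ?_ (hg.2.2.1 b hb)
    rintro _ ⟨i, -, rfl⟩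
    exact ⟨_, rfl⟩
  · rintro _ ⟨f, rfl⟩
    refine ymap ε (s := Set.range x) ?_ (by rw [hF.gen]; trivial)
    rintro _ ⟨i, rfl⟩
    obtain ⟨t, ht, hmt, hi⟩ := yGrow ε hst m hg i
    exact hg.2.2.2 i ((hm.le_of_ge ht hmt).1 hi)

omit hp in
theorem yProj_free_aux
    (hst : ∀ (X F : Type) [Group F] (x : X → F), yFree S x → ∀ ε : F →* F,
      (∀ f, ε (ε f) = ε f) → yStepP p x ε)
    (hin : ∀ (X F : Type) [Group F] (x : X → F), yFree S x → ∀ B : Set F, yInd p x ∅ B →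
      ∀ (W : Type) [Group W] (w : B → W), yFree S w → ∀ τ : W →* F, (∀ b, τ (w b) = b) →
      Function.Injective τ)
    (P : Type) [Group P] (hP : yVar S P) (hpr : yProj S P) :
    ∃ (B : Type) (b : B → P), yFree S b := by
  obtain ⟨F, _, x, hF⟩ := yFree_exists S P
  obtain ⟨ρ, hρ⟩ := hF.lift P hP id
  obtain ⟨ι, hι⟩ := hpr F P hF.var hP ρ (fun g => ⟨x g, hρ g⟩) (MonoidHom.id P)
  have hι' : ∀ g, ρ (ι g) = g := fun g => DFunLike.congr_fun hι g
  obtain ⟨B, hB, hcl⟩ := yBasis hF (ι.comp ρ) (hst _ _ x hF _ fun f => by simp [hι'])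
  obtain ⟨W, _, w, hW⟩ := yFree_exists S B
  obtain ⟨τ, hτ⟩ := hW.lift F hF.var Subtype.val
  have hinj := hin _ _ x hF B hB W w hW τ hτ
  have hr : τ.range = (ι.comp ρ).range := by
    rw [← hcl, MonoidHom.range_eq_map, ← hW.gen, MonoidHom.map_closure, ← Set.range_comp]
    congr 1
    ext a
    simp [hτ]
  have hbij : Function.Bijective (ρ.comp τ) := by
    constructor
    · refine (injective_iff_map_eq_one _).mpr fun v hv => hinj ?_
      obtain ⟨f, hf⟩ : τ v ∈ (ι.comp ρ).range := hr ▸ ⟨v, rfl⟩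
      rw [MonoidHom.comp_apply, ← hf, MonoidHom.comp_apply, hι'] at hv
      rw [← hf, MonoidHom.comp_apply, hv, map_one, map_one]
    · intro g
      obtain ⟨v, hv⟩ : ι g ∈ τ.range := hr ▸ ⟨ι g, by simp [hι']⟩
      exact ⟨v, by rw [MonoidHom.comp_apply, hv, hι']⟩
  let e : W ≃* P := MulEquiv.ofBijective _ hbij
  refine ⟨B, fun j => e (w j), hP, ?_, fun K _ hK g => ?_⟩
  · have h : (Set.range fun j => e (w j)) = e.toMonoidHom '' Set.range w := by
      rw [← Set.range_comp]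
      rfl
    rw [h, ← MonoidHom.map_closure, hW.gen, ← MonoidHom.range_eq_map, MonoidHom.range_eq_top]
    exact e.surjective
  · obtain ⟨θ, hθ⟩ := hW.lift K hK g
    exact ⟨θ.comp e.symm.toMonoidHom, fun j => by simp [hθ]⟩

/-- In a locally finite variety of `p`-groups every projective group is free. -/
theorem yProj_free
    (hS : ∀ (G : Type) [Group G], yVar S G → Group.FG G → Finite G ∧ IsPGroup p G)
    (P : Type) [Group P] (hP : yVar S P) (hpr : yProj S P) :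
    ∃ (B : Type) (b : B → P), yFree S b :=
  yProj_free_aux (p := p) (fun _ _ _ _ hF ε hε _ h0 T A hA hI => yStep hS hF ε hε h0 T A hA hI)
    (fun _ _ _ _ hF _ hB _ _ _ hW τ hτ => yInj hS hF hB hW τ hτ) P hP hpr

end Pool.Agent.Lib.MP_b442e4_al.LF
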